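import Pool.Agent.Helper25.SQ.Sharp

/-!
A set of squares with `√x / (log x) ^ (1 / 4)` elements below `x` and few representations in mean
square.
-/

set_option autoImplicit false

open Finset Filter

namespace Pool.Agent.Helper25.SQ

open Pool.Agent.Helper38.SP (quad EX EX_quad select sol_eq_quad)
open Pool.Agent.Helper25.RC (below rep mem_below)
open Pool.Agent.Helper5.RC (AA blk mem_blk card_blk)

theorem blocks : ∃ B : ℕ → Finset ℕ, B 0 = {0} ∧ (∀ j, ∀ b ∈ B j, 2 * b < 2 ^ j) ∧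
    (∀ j, ∀ b ∈ B j, IsSquare (2 ^ j + b)) ∧ (∀ j, ((quad (B j)).card : ℝ) ≤ 160 * 2 ^ j) ∧
    ∀ j : ℕ, 24 ≤ j → √(2 ^ j : ℝ) / (10 * (j : ℝ) ^ ((1 : ℝ) / 4)) ≤ ((B j).card : ℝ) := by
  classical
  have h : ∀ j : ℕ, ∃ B : Finset ℕ, (j = 0 → B = {0}) ∧ (∀ b ∈ B, 2 * b < 2 ^ j) ∧
      (∀ b ∈ B, IsSquare (2 ^ j + b)) ∧ ((quad B).card : ℝ) ≤ 160 * 2 ^ j ∧
      (24 ≤ j → √(2 ^ j : ℝ) / (10 * (j : ℝ) ^ ((1 : ℝ) / 4)) ≤ (B.card : ℝ)) := by
    intro j
    by_cases hj : 24 ≤ j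
    · obtain ⟨B, hB, h1, h2⟩ := one_scale hj
      refine ⟨B, fun h0 => by omega, fun b hb => (RR_spec (by omega) (hB hb)).1, fun b hb => ?_,
        h1, fun _ => h2⟩
      obtain ⟨_, k, _, hk⟩ := RR_spec (by omega) (hB hb)
      rw [hk]
      exact ⟨k, by ring⟩
    · rcases Nat.eq_zero_or_pos j with h0 | h0
      · subst h0
        refine ⟨{0}, fun _ => rfl, fun b hb => ?_, fun b hb => ?_, ?_, fun h => by omega⟩
        · rw [mem_singleton.1 hb]; norm_num
        · rw [mem_singleton.1 hb]; exact ⟨1, by norm_num⟩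
        · have h1 : (quad ({0} : Finset ℕ)).card ≤ 1 := by
            unfold quad
            refine (card_filter_le _ _).trans ?_
            simp
          have h2 : ((quad ({0} : Finset ℕ)).card : ℝ) ≤ 1 := by exact_mod_cast h1
          norm_num
          linarith
      · refine ⟨∅, fun h => by omega, fun b hb => absurd hb (notMem_empty b),
          fun b hb => absurd hb (notMem_empty b), ?_, fun h => absurd h hj⟩
        have h1 : (quad (∅ : Finset ℕ)).card = 0 := by unfold quad; simp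
        rw [h1, Nat.cast_zero]
        positivity
  choose B h0 h1 h2 h3 h4 using h
  exact ⟨B, h0 0 rfl, h1, h2, h3, h4⟩

theorem chain2 : Pool.Agent.Helper72.NS.Chain (fun j => 2 ^ j) :=
  ⟨pow_zero 2, fun j => ⟨2, by rw [pow_succ]⟩, fun j => by rw [pow_succ]; omega⟩

/-- The largest number of squares is attained. -/
theorem sq_sharp : ∃ (A : Set ℕ) (c C : ℝ), 0 < c ∧ (∀ a ∈ A, IsSquare a) ∧
    (∀ x : ℕ, 2 ≤ x → c * √x / Real.log x ^ ((1 : ℝ) / 4) ≤ #(below A x)) ∧
    ∀ x : ℕ, ∑ n ∈ range x, (rep A n : ℝ) ^ 2 ≤ C * x := by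
  obtain ⟨B, hB0, hB1, hB2, hB3, hB4⟩ := blocks
  refine ⟨AA (fun j => 2 ^ j) B, 1 / 8000, 2401 * 160, by norm_num, ?_, ?_, ?_⟩
  · rintro a ⟨j, hj⟩
    rw [mem_blk] at hj
    have := hB2 j _ hj.2
    rwa [Nat.add_sub_cancel' hj.1] at this
  · intro x hx
    have hx0 : (0 : ℝ) < x := by exact_mod_cast (by omega : 0 < x)
    have hlog : (0 : ℝ) < Real.log x := Real.log_pos (by exact_mod_cast (by omega : 1 < x))
    have hlog2 : (0.69 : ℝ) ≤ Real.log x := by
      have h1 := Real.log_two_gt_d9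
      have h2 : Real.log 2 ≤ Real.log x := Real.log_le_log (by norm_num) (by exact_mod_cast hx)
      linarith
    obtain ⟨L, hL⟩ : ∃ L : ℝ, L = Real.log x ^ ((1 : ℝ) / 4) := ⟨_, rfl⟩
    have hL0 : 0 < L := by rw [hL]; exact Real.rpow_pos_of_pos hlog _
    have hL4 : L ^ 4 = Real.log x := by
      rw [hL, ← Real.rpow_natCast, ← Real.rpow_mul hlog.le]
      norm_num
    rw [← hL]
    by_cases hxb : x < 2 ^ 25
    · have h1 : 1 ≤ (below (AA (fun j => 2 ^ j) B) x).card := by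
        refine card_pos.2 ⟨1, mem_below.2 ⟨by omega, 0, ?_⟩⟩
        rw [mem_blk, hB0]
        exact ⟨le_refl _, by simp⟩
      have h1' : (1 : ℝ) ≤ ((below (AA (fun j => 2 ^ j) B) x).card : ℝ) := by exact_mod_cast h1
      refine le_trans ?_ h1'
      have h2 : √(x : ℝ) ≤ 5800 := by
        refine Real.sqrt_le_iff.2 ⟨by norm_num, ?_⟩
        have : (x : ℝ) < 2 ^ 25 := by exact_mod_cast hxb
        norm_num at this ⊢
        linarith
      have h4 : (3 / 4 : ℝ) ≤ L := by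
        by_contra hcon
        have h5 : L ^ 4 < (3 / 4) ^ 4 := pow_lt_pow_left₀ (not_le.1 hcon) hL0.le (by norm_num)
        norm_num at h5
        linarith
      rw [div_le_one hL0]
      linarith
    · have hxb' : 2 ^ 25 ≤ x := not_lt.1 hxb
      obtain ⟨J, hJ1, hJ2⟩ : ∃ J, 2 ^ J ≤ x ∧ x < 2 ^ (J + 1) :=
        ⟨Nat.log 2 x, Nat.pow_log_le_self 2 (by omega), Nat.lt_pow_succ_log_self (by norm_num) x⟩
      have hJ : 25 ≤ J := by
        by_contra hcon
        have : 2 ^ (J + 1) ≤ 2 ^ 25 := Nat.pow_le_pow_right (by norm_num) (by omega)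
        omega
      obtain ⟨j, rfl⟩ : ∃ j, J = j + 1 := ⟨J - 1, by omega⟩
      have h1 : (B j).card ≤ (below (AA (fun j => 2 ^ j) B) x).card := by
        rw [← card_blk (2 ^ j)]
        refine card_le_card (fun a ha => ?_)
        have h2 := (mem_blk.1 ha)
        have h3 := hB1 j _ h2.2
        rw [mem_below]
        refine ⟨?_, j, ha⟩
        have h4 : 2 ^ (j + 1) = 2 * 2 ^ j := by ring
        have h5 := h2.1
        omega
      have h1' : ((B j).card : ℝ) ≤ ((below (AA (fun j => 2 ^ j) B) x).card : ℝ) := by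
        exact_mod_cast h1
      refine le_trans ?_ ((hB4 j (by omega)).trans h1')
      obtain ⟨r, hr⟩ : ∃ r : ℝ, r = (j : ℝ) ^ ((1 : ℝ) / 4) := ⟨_, rfl⟩
      have hj0 : (0 : ℝ) < j := by exact_mod_cast (by omega : 0 < j)
      have hr0 : 0 < r := by rw [hr]; positivity
      have hr4 : r ^ 4 = j := by
        rw [hr, ← Real.rpow_natCast, ← Real.rpow_mul hj0.le]
        norm_num
      rw [← hr]
      -- `j ≤ 2 log x`
      have h2 : (j : ℝ) ≤ 2 * Real.log x := by
        have h3 : (2 : ℝ) ^ (j + 1) ≤ x := by exact_mod_cast hJ1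
        have h4 : Real.log ((2 : ℝ) ^ (j + 1)) ≤ Real.log x := Real.log_le_log (by positivity) h3
        rw [Real.log_pow] at h4
        push_cast at h4
        have h5 := Real.log_two_gt_d9
        nlinarith
      have h3 : r ≤ 2 * L := by
        refine le_of_pow_le_pow_left₀ (n := 4) (by norm_num) (by positivity) ?_
        rw [hr4, mul_pow, hL4]
        linarith
      -- `√x ≤ 2 √(2 ^ j)`
      have h4 : √(x : ℝ) ≤ 2 * √(2 ^ j : ℝ) := by
        have h5 : (x : ℝ) ≤ 4 * 2 ^ j := by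
          have h6 : (x : ℝ) < 2 ^ (j + 1 + 1) := by exact_mod_cast hJ2
          have h7 : (2 : ℝ) ^ (j + 1 + 1) = 4 * 2 ^ j := by ring
          linarith
        calc √(x : ℝ) ≤ √(4 * 2 ^ j : ℝ) := Real.sqrt_le_sqrt h5
          _ = 2 * √(2 ^ j : ℝ) := by
            rw [Real.sqrt_mul (by norm_num)]
            congr 1
            rw [show (4 : ℝ) = 2 ^ 2 by norm_num]
            exact Real.sqrt_sq (by norm_num)
      rw [div_le_div_iff₀ hL0 (by positivity)]
      have h5 : 0 ≤ √(2 ^ j : ℝ) := Real.sqrt_nonneg _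
      have h6 : √(x : ℝ) * r ≤ (2 * √(2 ^ j : ℝ)) * (2 * L) :=
        mul_le_mul h4 h3 hr0.le (by positivity)
      have h7 : 0 ≤ √(2 ^ j : ℝ) * L := mul_nonneg h5 hL0.le
      calc 1 / 8000 * √(x : ℝ) * (10 * r) = 1 / 800 * (√(x : ℝ) * r) := by ring
        _ ≤ 1 / 800 * ((2 * √(2 ^ j : ℝ)) * (2 * L)) := by gcongr
        _ = 1 / 200 * (√(2 ^ j : ℝ) * L) := by ring
        _ ≤ √(2 ^ j : ℝ) * L := by linarith
  · intro x
    have h := Pool.Agent.Helper5.RC.mean_square chain2 (B := B) (D := 160) (fun j => ?_) x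
    · simp_rw [Pool.Agent.Helper5.RC.rep_eq] at h
      exact h
    · rw [sol_eq_quad (hB1 j)]
      have := hB3 j
      push_cast
      exact this

end Pool.Agent.Helper25.SQ
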