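import Pool.Agent.Helper64.BSDL2.P9a

/-!
A supply of primes congruent to one modulo four.
-/

set_option autoImplicit false

open Finset

namespace Pool.Agent.Helper25.SQ

open Pool.Agent.Helper64.BSDL2 (ch prime_bound)
open Pool.Agent.Helper9.Fam (pr mem_pr exists_mertens_lower sum_log_div_le)

/-- Mertens' lower bound for the primes `1 mod 4` -/
theorem mertens_one : ∃ K : ℝ, 0 ≤ K ∧ ∀ n : ℕ, 1 ≤ n →
    Real.log n / 2 - K ≤ ∑ p ∈ (pr n).filter (fun p => p % 4 = 1), Real.log p / (p : ℝ) := by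
  obtain ⟨K, hK, h1⟩ := prime_bound
  obtain ⟨C, hC, h2⟩ := exists_mertens_lower
  refine ⟨(K + C + 1) / 2, by positivity, fun n hn => ?_⟩
  have h3 := (abs_le.1 (h1 n hn)).1
  have h4 := h2 n hn
  have h5 : ∑ p ∈ Ioc 0 n, (if p.Prime then Real.log p / p * ch p else 0) =
      ∑ p ∈ pr n, Real.log p / (p : ℝ) * ch p := by
    rw [← sum_filter]
    refine sum_congr ?_ (fun _ _ => rfl)
    ext p
    rw [mem_filter, mem_Ioc, mem_pr]
    constructor
    · rintro ⟨⟨_, h⟩, hp⟩; exact ⟨hp, h⟩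
    · rintro ⟨hp, h⟩; exact ⟨⟨hp.pos, h⟩, hp⟩
  rw [h5] at h3
  have h6 : ∑ p ∈ pr n, Real.log p / (p : ℝ) + ∑ p ∈ pr n, Real.log p / (p : ℝ) * ch p ≤
      2 * ∑ p ∈ (pr n).filter (fun p => p % 4 = 1), Real.log p / (p : ℝ) + 1 := by
    rw [← sum_add_distrib, mul_sum, sum_filter]
    have h7 : ∀ p ∈ pr n, Real.log p / (p : ℝ) + Real.log p / (p : ℝ) * ch p ≤
        (if p % 4 = 1 then 2 * (Real.log p / (p : ℝ)) else 0) + (if p = 2 then 1 else 0) := by
      intro p hp
      have hpp := (mem_pr.1 hp).1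
      have h0 : 0 ≤ Real.log p / (p : ℝ) :=
        div_nonneg (Real.log_natCast_nonneg p) (Nat.cast_nonneg p)
      unfold ch
      by_cases e1 : p % 4 = 1
      · rw [if_pos e1, if_pos e1]
        have : (0 : ℝ) ≤ (if p = 2 then 1 else 0) := by split_ifs <;> norm_num
        linarith
      · rw [if_neg e1, if_neg e1]
        by_cases e3 : p % 4 = 3
        · rw [if_pos e3]
          have : (0 : ℝ) ≤ (if p = 2 then 1 else 0) := by split_ifs <;> norm_num
          linarith
        · rw [if_neg e3]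
          have h8 : p = 2 := by
            rcases hpp.eq_two_or_odd with h | h
            · exact h
            · omega
          rw [if_pos h8, h8]
          have := Real.log_two_lt_d9
          push_cast
          linarith
    refine (sum_le_sum h7).trans ?_
    rw [sum_add_distrib]
    gcongr
    rw [sum_ite_eq']
    split_ifs <;> norm_num
  linarith

/-- `log t / t` is decreasing -/
theorem log_div_le {a b : ℝ} (ha : 3 ≤ a) (hab : a ≤ b) : Real.log b / b ≤ Real.log a / a := by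
  have he := Real.exp_one_lt_d9
  have h1 : Real.exp 1 ≤ a := by linarith
  have h2 : Real.exp 1 ≤ b := by linarith
  exact Real.log_div_self_antitoneOn h1 h2 hab

/-- at least `k` primes `1 mod 4` in `[16 k, (C k) ^ 3]` -/
theorem supply : ∃ C : ℕ, ∀ k : ℕ, 1 ≤ k → ∃ P : Finset ℕ, P.card = k ∧
    ∀ p ∈ P, p.Prime ∧ p % 4 = 1 ∧ 16 * k ≤ p ∧ p ≤ (C * k) ^ 3 := by
  obtain ⟨K, hK, h⟩ := mertens_one
  obtain ⟨C, hC⟩ := exists_nat_gt (Real.exp (K + Real.log 4 + 2 * Real.log 16))
  refine ⟨C, fun k hk => ?_⟩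
  have hl4 : 0 ≤ Real.log 4 := Real.log_nonneg (by norm_num)
  have hl16 : 0 ≤ Real.log 16 := Real.log_nonneg (by norm_num)
  have hC1 : (1 : ℝ) < C := lt_of_le_of_lt (Real.one_le_exp (by positivity)) hC
  have hC0 : 1 ≤ C := by
    have : (1 : ℝ) < C := hC1
    exact_mod_cast this.le
  have hlC : K + Real.log 4 + 2 * Real.log 16 < Real.log C := by
    have := Real.log_lt_log (Real.exp_pos _) hC
    rwa [Real.log_exp] at this
  have hk1 : (1 : ℝ) ≤ k := by exact_mod_cast hk
  have hlk : 0 ≤ Real.log k := Real.log_nonneg hk1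
  obtain ⟨n, hn⟩ : ∃ n : ℕ, n = (C * k) ^ 3 := ⟨_, rfl⟩
  have hn1 : 1 ≤ n := by
    rw [hn]
    exact Nat.one_le_pow _ _ (Nat.mul_pos hC0 hk)
  have hlogn : Real.log n = 3 * (Real.log C + Real.log k) := by
    rw [hn]
    push_cast
    rw [Real.log_pow, Real.log_mul (by linarith) (by linarith)]
    norm_num
  obtain ⟨F, hF⟩ : ∃ F, F = ((pr n).filter (fun p => p % 4 = 1)).filter (fun p => 16 * k ≤ p) :=
    ⟨_, rfl⟩
  have hcard : k ≤ F.card := by
    by_contra hcon
    push Not at hcon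
    have h1 := h n hn1
    -- split the sum
    have h2 : ∑ p ∈ (pr n).filter (fun p => p % 4 = 1), Real.log p / (p : ℝ) ≤
        ∑ p ∈ pr (16 * k), Real.log p / (p : ℝ) + ∑ p ∈ F, Real.log p / (p : ℝ) := by
      rw [← sum_filter_add_sum_filter_not ((pr n).filter (fun p => p % 4 = 1))
        (fun p => 16 * k ≤ p), ← hF, add_comm]
      refine add_le_add_left (sum_le_sum_of_subset_of_nonneg ?_ fun p _ _ =>
        div_nonneg (Real.log_natCast_nonneg p) (Nat.cast_nonneg p)) _
      intro p hp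
      rw [mem_filter, mem_filter, mem_pr] at hp
      rw [mem_pr]
      exact ⟨hp.1.1.1, by omega⟩
    have h3 := sum_log_div_le (16 * k) (by omega)
    have h4 : ∑ p ∈ F, Real.log p / (p : ℝ) ≤ Real.log ((16 * k : ℕ) : ℝ) / 16 := by
      have h5 : ∀ p ∈ F, Real.log p / (p : ℝ) ≤ Real.log ((16 * k : ℕ) : ℝ) / ((16 * k : ℕ) : ℝ) := by
        intro p hp
        rw [hF, mem_filter] at hp
        refine log_div_le ?_ (by exact_mod_cast hp.2)
        push_cast
        linarith
      refine (sum_le_card_nsmul F _ _ h5).trans ?_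
      rw [nsmul_eq_mul]
      have h6 : (F.card : ℝ) ≤ k := by exact_mod_cast hcon.le
      have h7 : 0 ≤ Real.log ((16 * k : ℕ) : ℝ) := Real.log_natCast_nonneg _
      calc (F.card : ℝ) * (Real.log ((16 * k : ℕ) : ℝ) / ((16 * k : ℕ) : ℝ))
          ≤ k * (Real.log ((16 * k : ℕ) : ℝ) / ((16 * k : ℕ) : ℝ)) := by gcongr
        _ = Real.log ((16 * k : ℕ) : ℝ) / 16 := by
          push_cast
          field_simp
    have h8 : Real.log ((16 * k : ℕ) : ℝ) = Real.log 16 + Real.log k := by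
      push_cast
      rw [Real.log_mul (by norm_num) (by linarith)]
    rw [h8] at h3 h4
    rw [hlogn] at h1
    nlinarith
  obtain ⟨P, hPF, hPc⟩ := exists_subset_card_eq hcard
  refine ⟨P, hPc, fun p hp => ?_⟩
  have h1 := hPF hp
  rw [hF, mem_filter, mem_filter, mem_pr] at h1
  exact ⟨h1.1.1.1, h1.1.2, h1.2, by rw [← hn]; exact h1.1.1.2⟩

end Pool.Agent.Helper25.SQ
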