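import Pool.Agent.Helper25.SQ.Param2
import Pool.Agent.Helper79.SQ.MainD
import Pool.Agent.Helper5.SQ.Cor

/-!
The squares theorem for the values of quadratic polynomials.
-/

set_option autoImplicit false

open Finset Filter

namespace Pool.Agent.Helper25.SQ

open Pool.Agent.Helper25.RC Pool.Agent.Helper5.SQ

theorem exists_ld : ∃ C : ℕ, Ld C := Pool.Agent.Helper79.SQ.main_d

/-- A set with bounded representation function has few values of a quadratic polynomial. -/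
theorem few_values : ∃ c : ℝ, 0 < c ∧ ∀ (g : ℝ) (a b e : ℤ), 0 < a →
    ∃ C : ℝ, ∀ A : Set ℕ, (∀ n : ℕ, (rep A n : ℝ) ≤ g) → ∀ x : ℕ, 2 ≤ x →
      (#(below (A ∩ quad a b e) x) : ℝ) ≤ C * √x * Real.exp (-(c * √(Real.log x))) := by
  obtain ⟨C, h⟩ := exists_ld
  obtain ⟨c, hc, h1⟩ := few_exp h
  exact ⟨c, hc, fun g a b e ha => quad_few hc.le h1 g a b e ha⟩

/-- The inequality for all sets. -/
theorem large_values : ∃ c : ℝ, 0 < c ∧ ∀ a b e : ℤ, 0 < a →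
    ∃ c' : ℝ, 0 < c' ∧ ∀ (A : Set ℕ) (x : ℕ), 2 ≤ x → ∃ n : ℕ, n < 2 * x ∧
      c' * (#(below (A ∩ quad a b e) x) : ℝ) ^ 2 / x * Real.exp (c * √(Real.log x)) ≤
        rep A n := by
  obtain ⟨C, h⟩ := exists_ld
  obtain ⟨c, hc, h1⟩ := large h
  refine ⟨c, hc, fun a b e ha => quad_max hc hc.le (fun A x hx => ?_) a b e ha⟩
  obtain ⟨n, hn, h2⟩ := h1 A x hx
  refine ⟨n, hn, ?_⟩
  rwa [mul_div_assoc]

/-- A positive proportion of the values of a quadratic polynomial. -/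
theorem many_values : ∃ c : ℝ, 0 < c ∧ ∀ (a b e : ℤ) (A : Set ℕ), 0 < a →
    ¬ Null (A ∩ quad a b e) → ∃ᶠ n : ℕ in atTop,
      Real.exp (c * (Real.log n / Real.log (Real.log n))) ≤ rep A n := by
  obtain ⟨C, h⟩ := exists_ld
  obtain ⟨c, hc, h1⟩ := many h
  refine ⟨c, hc, fun a b e A ha hA => quad_often hc.le (fun B hB => ?_) a b e ha A hA⟩
  rw [Filter.frequently_atTop]
  intro N
  obtain ⟨n, hn, h2⟩ := h1 B hB N
  exact ⟨n, hn, h2⟩

end Pool.Agent.Helper25.SQ
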