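import Pool.Agent.Helper25.SQ.Final2

/-!
Elements near the numbers `α u ^ 2`.
-/

set_option autoImplicit false

open Finset Filter

namespace Pool.Agent.Helper25.SQ

open Pool.Agent.Helper25.RC

/-- at most `2 h + 1` natural numbers are within `h` of a real number -/
theorem card_near (S : Finset ℕ) (y h : ℝ) (hh : 0 ≤ h) (hS : ∀ n ∈ S, |(n : ℝ) - y| ≤ h) :
    (#S : ℝ) ≤ 2 * h + 1 := by
  classical
  have h1 : #S ≤ #(Finset.Icc ⌈y - h⌉ ⌊y + h⌋) := by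
    refine card_le_card_of_injOn (fun n : ℕ => (n : ℤ)) ?_ ?_
    · intro n hn
      have h2 := abs_le.1 (hS n hn)
      rw [SetLike.mem_coe, Finset.mem_Icc]
      refine ⟨Int.ceil_le.2 ?_, Int.le_floor.2 ?_⟩
      · push_cast
        linarith [h2.1]
      · push_cast
        linarith [h2.2]
    · intro n _ m _ hnm
      have hnm' : ((n : ℕ) : ℤ) = (m : ℤ) := hnm
      exact_mod_cast hnm'
  rw [Int.card_Icc] at h1
  have h2 : ((⌊y + h⌋ + 1 - ⌈y - h⌉).toNat : ℝ) ≤ 2 * h + 1 := by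
    by_cases h3 : 0 ≤ ⌊y + h⌋ + 1 - ⌈y - h⌉
    · have h4 : (((⌊y + h⌋ + 1 - ⌈y - h⌉).toNat : ℤ) : ℝ) =
          ((⌊y + h⌋ + 1 - ⌈y - h⌉ : ℤ) : ℝ) := by
        rw [Int.toNat_of_nonneg h3]
      rw [Int.cast_natCast] at h4
      rw [h4]
      push_cast
      have h5 := Int.floor_le (y + h)
      have h6 := Int.le_ceil (y - h)
      linarith
    · rw [Int.toNat_of_nonpos (by omega)]
      push_cast
      linarith
  have h3 : (#S : ℝ) ≤ ((⌊y + h⌋ + 1 - ⌈y - h⌉).toNat : ℝ) := by exact_mod_cast h1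
  linarith

/-- The inequality for the elements near the numbers `α u ^ 2`. -/
theorem near_all : ∃ c : ℝ, 0 < c ∧ ∀ α : ℝ, 0 < α → ∃ c' : ℝ, 0 < c' ∧
    ∀ (A : Set ℕ) (x : ℕ), 2 ≤ x → ∃ n : ℕ, n < 2 * x ∧
      c' * (#(below (A ∩ {n | ∃ u : ℕ, |(n : ℝ) - α * u ^ 2| ≤
        Real.exp (c * √(Real.log x))}) x) : ℝ) ^ 2 / x * Real.exp (c * √(Real.log x)) ≤
        rep A n := by
  classical
  obtain ⟨C0, hC0⟩ := exists_ld
  obtain ⟨c0, hc0, h0⟩ := large hC0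
  refine ⟨min (c0 / 4) (1 / 2), by positivity, fun α hα => ?_⟩
  obtain ⟨c, hc⟩ : ∃ c, c = min (c0 / 4) (1 / 2) := ⟨_, rfl⟩
  rw [← hc]
  have hc1 : c ≤ c0 / 4 := by rw [hc]; exact min_le_left _ _
  have hc2 : c ≤ 1 / 2 := by rw [hc]; exact min_le_right _ _
  have hcp : 0 < c := by rw [hc]; positivity
  obtain ⟨K, hK⟩ : ∃ K : ℕ, K = ⌈2 / α⌉₊ + 1 := ⟨_, rfl⟩
  have hK1 : 2 / α < K := by
    rw [hK]
    push_cast
    have := Nat.le_ceil (2 / α)
    linarith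
  have hK0 : (0 : ℝ) < K := by
    have : 0 < 2 / α := by positivity
    linarith
  refine ⟨c0 / (45 * K), by positivity, fun A x hx => ?_⟩
  have hx0 : (0 : ℝ) < x := by positivity
  have hx2 : (2 : ℝ) ≤ x := by exact_mod_cast hx
  obtain ⟨q, hq⟩ : ∃ q, q = √(Real.log x) := ⟨_, rfl⟩
  have hq0 : 0 ≤ q := by rw [hq]; positivity
  rw [← hq]
  have hlog : 0 ≤ Real.log x := Real.log_natCast_nonneg x
  have hq2 : q ^ 2 = Real.log x := by rw [hq, Real.sq_sqrt hlog]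
  have hq1 : 1 / 2 ≤ q := by
    have h1 : (1 / 2 : ℝ) ^ 2 ≤ q ^ 2 := by
      rw [hq2]
      have h2 : Real.log 2 ≤ Real.log x := Real.log_le_log (by norm_num) hx2
      have h3 := Real.log_two_gt_d9
      linarith
    exact le_of_sq_le_sq h1 hq0
  obtain ⟨h, hh⟩ : ∃ h, h = Real.exp (c * q) := ⟨_, rfl⟩
  have hh1 : 1 ≤ h := by
    rw [hh]
    exact Real.one_le_exp (by positivity)
  have hhx : h ≤ x := by
    rw [hh, ← Real.exp_log hx0, ← hq2]
    apply Real.exp_le_exp.2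
    nlinarith
  rw [← hh]
  obtain ⟨S, hS⟩ : ∃ S, S = below (A ∩ {n | ∃ u : ℕ, |(n : ℝ) - α * u ^ 2| ≤ h}) x := ⟨_, rfl⟩
  rw [← hS]
  have hSm : ∀ n ∈ S, n < x ∧ n ∈ A ∧ ∃ u : ℕ, |(n : ℝ) - α * u ^ 2| ≤ h := by
    intro n hn
    rw [hS] at hn
    exact mem_below.1 hn
  rcases S.eq_empty_or_nonempty with hE | hne
  · refine ⟨0, by omega, ?_⟩
    rw [hE]
    simp
  choose! f hf using fun n (hn : n ∈ S) => (hSm n hn).2.2
  obtain ⟨U, hU⟩ : ∃ U, U = S.image f := ⟨_, rfl⟩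
  have hsec : ∀ u ∈ U, ∃ n ∈ S, f n = u := by
    intro u hu
    rw [hU] at hu
    obtain ⟨n, hn, h1⟩ := mem_image.1 hu
    exact ⟨n, hn, h1⟩
  choose! s hs using hsec
  -- the fibres
  have hSU : (#S : ℝ) ≤ (2 * h + 1) * #U := by
    have h1 : #S = ∑ u ∈ U, #{n ∈ S | f n = u} :=
      card_eq_sum_card_fiberwise (fun n hn => by
        rw [hU]
        exact mem_coe.2 (mem_image_of_mem f hn))
    rw [h1]
    push_cast
    calc ∑ u ∈ U, (#{n ∈ S | f n = u} : ℝ) ≤ ∑ u ∈ U, (2 * h + 1) := by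
          refine sum_le_sum fun u _ => card_near _ (α * u ^ 2) h (by linarith) ?_
          intro n hn
          obtain ⟨h2, h3⟩ := mem_filter.1 hn
          have h4 := hf n h2
          rwa [h3] at h4
      _ = _ := by
          rw [sum_const, nsmul_eq_mul]
          ring
  have hU0 : 0 < #U := by
    rw [hU]
    exact card_pos.2 (hne.image f)
  -- the set of squares
  obtain ⟨B, hB⟩ : ∃ B : Set ℕ, B = {m | ∃ u ∈ U, m = u ^ 2} := ⟨_, rfl⟩
  have hux : ∀ u ∈ U, u ^ 2 < K * x := by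
    intro u hu
    obtain ⟨h1, h2⟩ := hs u hu
    have h3 := hf _ h1
    rw [h2] at h3
    have h4 := (abs_le.1 h3).1
    have h5 : ((s u : ℕ) : ℝ) < x := by exact_mod_cast (hSm _ h1).1
    have h6 : α * (u : ℝ) ^ 2 < 2 * x := by linarith
    have h7 : (u : ℝ) ^ 2 < 2 / α * x := by
      rw [div_mul_eq_mul_div, lt_div_iff₀ hα]
      linarith
    have h8 : (u : ℝ) ^ 2 < K * x := by
      have : 2 / α * x ≤ K * x := by gcongr
      linarith
    exact_mod_cast h8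
  have hKx : 2 ≤ K * x := by
    have : 1 ≤ K := by
      rw [hK]
      omega
    nlinarith
  obtain ⟨m, hm, h1⟩ := h0 B (K * x) hKx
  have hUB : (#U : ℝ) ≤ #(below (B ∩ {n | IsSquare n}) (K * x)) := by
    have : #U ≤ #(below (B ∩ {n | IsSquare n}) (K * x)) := by
      refine card_le_card_of_injOn (fun u => u ^ 2) ?_ ?_
      · intro u hu
        rw [SetLike.mem_coe, mem_below]
        refine ⟨hux u hu, ?_, u, by ring⟩
        rw [hB]
        exact ⟨u, hu, rfl⟩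
      · intro u _ v _ huv
        have huv' : u ^ 2 = v ^ 2 := huv
        exact Nat.pow_left_injective (by norm_num : 2 ≠ 0) huv'
    exact_mod_cast this
  have hlogK : q ≤ √(Real.log ((K * x : ℕ) : ℝ)) := by
    rw [hq]
    apply Real.sqrt_le_sqrt
    apply Real.log_le_log hx0
    push_cast
    have : (1 : ℝ) ≤ K := by
      rw [hK]
      push_cast
      have : (0 : ℝ) ≤ (⌈2 / α⌉₊ : ℝ) := Nat.cast_nonneg _
      linarith
    nlinarith
  have h2 : c0 * ((#U : ℝ) ^ 2 / (K * x)) * Real.exp (c0 * q) ≤ rep B m := by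
    refine le_trans ?_ h1
    push_cast at hlogK ⊢
    gcongr
  -- the pairs
  obtain ⟨P, hP⟩ : ∃ P, P = (U ×ˢ U).filter (fun p => p.1 ^ 2 + p.2 ^ 2 = m) := ⟨_, rfl⟩
  have hBP : rep B m ≤ #P := by
    unfold rep
    refine card_le_card_of_surjOn (fun p => (p.1 ^ 2, p.2 ^ 2)) ?_
    intro p hp
    rw [mem_coe, mem_filter, HasAntidiagonal.mem_antidiagonal, hB] at hp
    obtain ⟨h3, ⟨u, hu, hu'⟩, ⟨v, hv, hv'⟩⟩ := hp
    refine ⟨(u, v), ?_, ?_⟩
    · rw [hP, mem_coe, mem_filter, mem_product]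
      refine ⟨⟨hu, hv⟩, ?_⟩
      rw [← h3, hu', hv']
    · exact Prod.ext hu'.symm hv'.symm
  obtain ⟨W, hW⟩ : ∃ W, W = P.image (fun p => s p.1 + s p.2) := ⟨_, rfl⟩
  have hWc : (#W : ℝ) ≤ 2 * (2 * h) + 1 := by
    refine card_near W (α * m) (2 * h) (by linarith) ?_
    intro w hw
    rw [hW] at hw
    obtain ⟨p, hp, rfl⟩ := mem_image.1 hw
    rw [hP, mem_filter, mem_product] at hp
    obtain ⟨⟨hp1, hp2⟩, hp3⟩ := hp
    obtain ⟨h3, h4⟩ := hs _ hp1
    obtain ⟨h5, h6⟩ := hs _ hp2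
    have h7 := hf _ h3
    have h8 := hf _ h5
    rw [h4] at h7
    rw [h6] at h8
    have h9 := abs_le.1 h7
    have h10 := abs_le.1 h8
    have h11 : (m : ℝ) = (p.1 : ℝ) ^ 2 + (p.2 : ℝ) ^ 2 := by
      rw [← hp3]
      push_cast
      ring
    rw [h11, abs_le]
    push_cast
    constructor
    · linarith [h9.1, h10.1]
    · linarith [h9.2, h10.2]
  have hPr : #P ≤ ∑ w ∈ W, rep A w := by
    rw [card_eq_sum_card_fiberwise (f := fun p => s p.1 + s p.2) (t := W) (fun p hp => by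
      rw [hW]
      exact mem_coe.2 (mem_image_of_mem _ hp))]
    refine sum_le_sum fun w _ => ?_
    unfold rep
    refine card_le_card_of_injOn (fun p => (s p.1, s p.2)) ?_ ?_
    · intro p hp
      rw [mem_coe, mem_filter] at hp
      obtain ⟨hp0, hp4⟩ := hp
      rw [hP, mem_filter, mem_product] at hp0
      obtain ⟨⟨hp1, hp2⟩, hp3⟩ := hp0
      rw [mem_coe, mem_filter, HasAntidiagonal.mem_antidiagonal]
      exact ⟨hp4, (hSm _ (hs _ hp1).1).2.1, (hSm _ (hs _ hp2).1).2.1⟩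
    · intro p hp p' hp' hpp
      rw [mem_coe, mem_filter, hP, mem_filter, mem_product] at hp hp'
      have e1 : s p.1 = s p'.1 := congrArg Prod.fst hpp
      have e2 : s p.2 = s p'.2 := congrArg Prod.snd hpp
      have e3 := (hs _ hp.1.1.1).2
      have e4 := (hs _ hp'.1.1.1).2
      have e5 := (hs _ hp.1.1.2).2
      have e6 := (hs _ hp'.1.1.2).2
      rw [e1, e4] at e3
      rw [e2, e6] at e5
      exact Prod.ext e3.symm e5.symm
  -- a sum with many representations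
  have hpos : (0 : ℝ) < #P := by
    have h3 : (0 : ℝ) < c0 * ((#U : ℝ) ^ 2 / (K * x)) * Real.exp (c0 * q) := by
      have : (0 : ℝ) < #U := by exact_mod_cast hU0
      positivity
    have h4 : (rep B m : ℝ) ≤ #P := by exact_mod_cast hBP
    linarith
  have hWne : W.Nonempty := by
    rw [hW]
    refine Finset.Nonempty.image ?_ _
    rw [← card_pos]
    exact_mod_cast hpos
  obtain ⟨w, hw, hmax⟩ := exists_max_image W (fun w => rep A w) hWne
  have h3 : (#P : ℝ) ≤ #W * rep A w := by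
    have h4 : ∑ w' ∈ W, rep A w' ≤ #W * rep A w := by
      calc ∑ w' ∈ W, rep A w' ≤ ∑ w' ∈ W, rep A w := sum_le_sum hmax
        _ = _ := by rw [sum_const, smul_eq_mul]
    exact_mod_cast hPr.trans h4
  have hw2 : w < 2 * x := by
    rw [hW] at hw
    obtain ⟨p, hp, rfl⟩ := mem_image.1 hw
    rw [hP, mem_filter, mem_product] at hp
    have h4 := (hSm _ (hs _ hp.1.1).1).1
    have h5 := (hSm _ (hs _ hp.1.2).1).1
    show s p.1 + s p.2 < 2 * x
    omega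
  refine ⟨w, hw2, ?_⟩
  have hr0 : (0 : ℝ) ≤ rep A w := Nat.cast_nonneg _
  have hBPr : (rep B m : ℝ) ≤ #P := by exact_mod_cast hBP
  have h4 : c0 * ((#U : ℝ) ^ 2 / (K * x)) * Real.exp (c0 * q) ≤ 5 * h * rep A w := by
    calc c0 * ((#U : ℝ) ^ 2 / (K * x)) * Real.exp (c0 * q) ≤ #W * rep A w := by linarith
      _ ≤ 5 * h * rep A w := by
        gcongr
        linarith
  have h5 : (#S : ℝ) ≤ 3 * h * #U := by
    refine hSU.trans ?_
    gcongr
    linarith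
  have h6 : (#S : ℝ) ^ 2 ≤ 9 * h ^ 2 * (#U : ℝ) ^ 2 := by
    calc (#S : ℝ) ^ 2 ≤ (3 * h * #U) ^ 2 := by gcongr
      _ = _ := by ring
  have h7 : h ^ 4 ≤ Real.exp (c0 * q) := by
    rw [hh, ← Real.exp_nat_mul]
    apply Real.exp_le_exp.2
    push_cast
    nlinarith
  have hh0 : 0 < h := by linarith
  have h8 : c0 / (45 * K) * (#S : ℝ) ^ 2 / x * h ≤
      c0 * ((#U : ℝ) ^ 2 / (K * x)) * h ^ 3 / 5 := by
    calc c0 / (45 * K) * (#S : ℝ) ^ 2 / x * h ≤
        c0 / (45 * K) * (9 * h ^ 2 * (#U : ℝ) ^ 2) / x * h := by gcongr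
      _ = c0 * ((#U : ℝ) ^ 2 / (K * x)) * h ^ 3 / 5 := by
        field_simp
        ring
  refine h8.trans ?_
  have h9 : c0 * ((#U : ℝ) ^ 2 / (K * x)) * h ^ 3 * (5 * h) ≤ 5 * (5 * h * rep A w) := by
    calc c0 * ((#U : ℝ) ^ 2 / (K * x)) * h ^ 3 * (5 * h) =
        5 * (c0 * ((#U : ℝ) ^ 2 / (K * x)) * h ^ 4) := by ring
      _ ≤ 5 * (c0 * ((#U : ℝ) ^ 2 / (K * x)) * Real.exp (c0 * q)) := by gcongr
      _ ≤ _ := by linarith
  have h10 : c0 * ((#U : ℝ) ^ 2 / (K * x)) * h ^ 3 ≤ 5 * rep A w := by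
    have h11 : c0 * ((#U : ℝ) ^ 2 / (K * x)) * h ^ 3 * (5 * h) ≤ 5 * rep A w * (5 * h) := by
      linarith
    exact le_of_mul_le_mul_right h11 (by positivity)
  linarith

/-- A set with bounded representation function has few elements near the numbers `α u ^ 2`. -/
theorem near_few : ∃ c : ℝ, 0 < c ∧ ∀ g α : ℝ, 0 < α → ∃ C : ℝ, ∀ A : Set ℕ,
    (∀ n : ℕ, (rep A n : ℝ) ≤ g) → ∀ x : ℕ, 2 ≤ x →
      (#(below (A ∩ {n | ∃ u : ℕ, |(n : ℝ) - α * u ^ 2| ≤
        Real.exp (c * √(Real.log x))}) x) : ℝ) ≤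
        C * √x * Real.exp (-(c * √(Real.log x))) := by
  obtain ⟨c, hc, h⟩ := near_all
  refine ⟨c / 2, by positivity, fun g α hα => ?_⟩
  obtain ⟨c', hc', h'⟩ := h α hα
  refine ⟨√(max g 0 / c'), fun A hA x hx => ?_⟩
  have hx0 : (0 : ℝ) < x := by positivity
  obtain ⟨n, _, h2⟩ := h' A x hx
  obtain ⟨q, hq⟩ : ∃ q, q = √(Real.log x) := ⟨_, rfl⟩
  have hq0 : 0 ≤ q := by rw [hq]; positivity
  rw [← hq] at h2 ⊢
  obtain ⟨N, hN⟩ : ∃ N : ℝ, N = #(below (A ∩ {n | ∃ u : ℕ, |(n : ℝ) - α * u ^ 2| ≤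
    Real.exp (c * q)}) x) := ⟨_, rfl⟩
  have hN0 : 0 ≤ N := by rw [hN]; positivity
  have hle : (#(below (A ∩ {n | ∃ u : ℕ, |(n : ℝ) - α * u ^ 2| ≤
      Real.exp (c / 2 * q)}) x) : ℝ) ≤ N := by
    rw [hN]
    have : below (A ∩ {n | ∃ u : ℕ, |(n : ℝ) - α * u ^ 2| ≤ Real.exp (c / 2 * q)}) x ⊆
        below (A ∩ {n | ∃ u : ℕ, |(n : ℝ) - α * u ^ 2| ≤ Real.exp (c * q)}) x := by
      refine below_mono (Set.inter_subset_inter_right _ ?_) x
      rintro m ⟨u, hu⟩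
      refine ⟨u, hu.trans (Real.exp_le_exp.2 ?_)⟩
      nlinarith
    exact_mod_cast card_le_card this
  rw [← hN] at h2
  refine hle.trans ?_
  have hg : 0 ≤ max g 0 := le_max_right _ _
  have h3 : c' * N ^ 2 / x * Real.exp (c * q) ≤ max g 0 :=
    h2.trans ((hA n).trans (le_max_left _ _))
  have h4 : N ^ 2 ≤ max g 0 / c' * x * Real.exp (-(c * q)) := by
    rw [Real.exp_neg]
    have he : 0 < Real.exp (c * q) := Real.exp_pos _
    have h5 : N ^ 2 * Real.exp (c * q) * c' ≤ max g 0 * x := by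
      have h6 := mul_le_mul_of_nonneg_right h3 hx0.le
      calc N ^ 2 * Real.exp (c * q) * c' = c' * N ^ 2 / x * Real.exp (c * q) * x := by field_simp
        _ ≤ _ := h6
    rw [← div_eq_mul_inv, le_div_iff₀ he, div_mul_eq_mul_div, le_div_iff₀ hc']
    exact h5
  have h5 : (√(max g 0 / c') * √(x : ℝ) * Real.exp (-(c / 2 * q))) ^ 2 =
      max g 0 / c' * x * Real.exp (-(c * q)) := by
    rw [mul_pow, mul_pow, Real.sq_sqrt (by positivity), Real.sq_sqrt hx0.le, ← Real.exp_nat_mul]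
    congr 2
    push_cast
    ring
  rw [← h5] at h4
  exact le_of_sq_le_sq h4 (by positivity)

end Pool.Agent.Helper25.SQ
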