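import Pool.Agent.Helper25.SQ.RealNear

/-!
A positive proportion of the numbers near `α u ^ 2`.
-/

set_option autoImplicit false

open Finset Filter

namespace Pool.Agent.Helper25.SQ

open Pool.Agent.Helper25.RC

/-- Representations move along a map which is close to multiplication by `α`. -/
theorem shift {A B : Set ℕ} {α H : ℝ} (hH : 0 ≤ H) {t : ℕ → ℕ}
    (ht : ∀ k ∈ B, t k ∈ A ∧ |(t k : ℝ) - α * k| ≤ H)
    (hinj : ∀ k ∈ B, ∀ l ∈ B, t k = t l → k = l) {m : ℕ} (hpos : 0 < rep B m) :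
    ∃ w : ℕ, |(w : ℝ) - α * m| ≤ 2 * H ∧ (rep B m : ℝ) ≤ (4 * H + 1) * rep A w := by
  classical
  obtain ⟨P, hP⟩ : ∃ P : Finset (ℕ × ℕ), P = {p ∈ antidiagonal m | p.1 ∈ B ∧ p.2 ∈ B} := ⟨_, rfl⟩
  have hPm : ∀ p ∈ P, p.1 + p.2 = m ∧ p.1 ∈ B ∧ p.2 ∈ B := by
    intro p hp
    rw [hP, mem_filter, HasAntidiagonal.mem_antidiagonal] at hp
    exact hp
  have hr : rep B m = #P := by
    rw [hP]
    unfold rep
    congr
  obtain ⟨W, hW⟩ : ∃ W, W = P.image (fun p => t p.1 + t p.2) := ⟨_, rfl⟩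
  have hWn : ∀ w ∈ W, |(w : ℝ) - α * m| ≤ 2 * H := by
    intro w hw
    rw [hW] at hw
    obtain ⟨p, hp, rfl⟩ := mem_image.1 hw
    obtain ⟨h1, h2, h3⟩ := hPm p hp
    have h4 := abs_le.1 (ht _ h2).2
    have h5 := abs_le.1 (ht _ h3).2
    rw [← h1, abs_le]
    push_cast
    constructor
    · linarith [h4.1, h5.1]
    · linarith [h4.2, h5.2]
  have hWc : (#W : ℝ) ≤ 4 * H + 1 := by
    have := card_near W (α * m) (2 * H) (by linarith) hWn
    linarith
  have hPr : #P ≤ ∑ w ∈ W, rep A w := by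
    rw [card_eq_sum_card_fiberwise (f := fun p => t p.1 + t p.2) (t := W) (fun p hp => by
      rw [hW]
      exact mem_coe.2 (mem_image_of_mem _ hp))]
    refine sum_le_sum fun w _ => ?_
    unfold rep
    refine card_le_card_of_injOn (fun p => (t p.1, t p.2)) ?_ ?_
    · intro p hp
      rw [mem_coe, mem_filter] at hp
      obtain ⟨hp0, hp4⟩ := hp
      obtain ⟨_, h2, h3⟩ := hPm p hp0
      rw [mem_coe, mem_filter, HasAntidiagonal.mem_antidiagonal]
      exact ⟨hp4, (ht _ h2).1, (ht _ h3).1⟩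
    · intro p hp p' hp' hpp
      rw [mem_coe, mem_filter] at hp hp'
      obtain ⟨_, h2, h3⟩ := hPm p hp.1
      obtain ⟨_, h5, h6⟩ := hPm p' hp'.1
      have e1 : t p.1 = t p'.1 := congrArg Prod.fst hpp
      have e2 : t p.2 = t p'.2 := congrArg Prod.snd hpp
      exact Prod.ext (hinj _ h2 _ h5 e1) (hinj _ h3 _ h6 e2)
  have hWne : W.Nonempty := by
    rw [hW]
    refine Finset.Nonempty.image ?_ _
    rw [← card_pos, ← hr]
    exact hpos
  obtain ⟨w, hw, hmax⟩ := exists_max_image W (fun w => rep A w) hWne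
  refine ⟨w, hWn w hw, ?_⟩
  have h3 : (#P : ℝ) ≤ #W * rep A w := by
    have h4 : ∑ w' ∈ W, rep A w' ≤ #W * rep A w := by
      calc ∑ w' ∈ W, rep A w' ≤ ∑ w' ∈ W, rep A w := sum_le_sum hmax
        _ = _ := by rw [sum_const, smul_eq_mul]
    exact_mod_cast hPr.trans h4
  rw [hr]
  refine h3.trans ?_
  gcongr

theorem ratio_ge {y : ℝ} (hy : 1 < y) : √y / 2 ≤ y / Real.log y := by
  have h0 : 0 < √y := Real.sqrt_pos.2 (by linarith)
  have h1 : Real.log y ≤ 2 * √y := by
    have h2 : Real.log y = 2 * Real.log (√y) := by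
      rw [Real.log_sqrt (by linarith)]
      ring
    have h3 := Real.log_le_sub_one_of_pos h0
    linarith
  have h4 : 0 < Real.log y := Real.log_pos hy
  rw [div_le_div_iff₀ (by norm_num) h4]
  have h5 : √y * √y = y := Real.mul_self_sqrt (by linarith)
  nlinarith

/-- A set with a positive proportion of the numbers near `α u ^ 2` has a large representation
function. -/
theorem many_near : ∃ c : ℝ, 0 < c ∧ ∀ (α h : ℝ) (A : Set ℕ), 0 < α →
    ¬ Null (A ∩ {n | ∃ u : ℕ, |(n : ℝ) - α * u ^ 2| ≤ h}) →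
    ∃ᶠ n : ℕ in atTop, Real.exp (c * (Real.log n / Real.log (Real.log n))) ≤ rep A n := by
  classical
  obtain ⟨C0, hC0⟩ := exists_ld
  obtain ⟨c, hc, hmany⟩ := many hC0
  refine ⟨c / 3, by positivity, fun α h A hα hA => ?_⟩
  obtain ⟨H, hHd⟩ : ∃ H, H = max h 0 := ⟨_, rfl⟩
  have hH : 0 ≤ H := by rw [hHd]; exact le_max_right _ _
  obtain ⟨D, hD⟩ : ∃ D : Set ℕ, D = A ∩ {n | ∃ u : ℕ, |(n : ℝ) - α * u ^ 2| ≤ H} := ⟨_, rfl⟩
  have hDn : ¬ Null D := by
    intro hN
    apply hA
    refine hN.mono ?_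
    rw [hD]
    refine Set.inter_subset_inter_right _ ?_
    rintro n ⟨u, hu⟩
    exact ⟨u, hu.trans (by rw [hHd]; exact le_max_left _ _)⟩
  have hDm : ∀ n ∈ D, n ∈ A ∧ ∃ u : ℕ, |(n : ℝ) - α * u ^ 2| ≤ H := by
    intro n hn
    rw [hD] at hn
    exact hn
  choose! f hf using fun n (hn : n ∈ D) => (hDm n hn).2
  have hsec : ∀ u : ℕ, (∃ n ∈ D, f n = u) → ∃ n ∈ D, f n = u := fun u hu => hu
  choose! s hs using hsec
  obtain ⟨B, hB⟩ : ∃ B : Set ℕ, B = {m | ∃ n ∈ D, m = f n ^ 2} := ⟨_, rfl⟩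
  have hsq : ∀ k ∈ B, s (Nat.sqrt k) ∈ D ∧ f (s (Nat.sqrt k)) = Nat.sqrt k ∧
      Nat.sqrt k ^ 2 = k := by
    intro k hk
    rw [hB] at hk
    obtain ⟨n, hn, rfl⟩ := hk
    have e : Nat.sqrt (f n ^ 2) = f n := by
      rw [pow_two]
      exact Nat.sqrt_eq _
    rw [e]
    obtain ⟨h1, h2⟩ := hs (f n) ⟨n, hn, rfl⟩
    exact ⟨h1, h2, rfl⟩
  -- `B` has a positive proportion of the squares
  have hBn : ¬ Null (B ∩ {n | IsSquare n}) := by
    intro hN
    apply hDn
    intro ε hε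
    obtain ⟨K, hK⟩ : ∃ K : ℕ, K = ⌈(1 + H) / α⌉₊ + 1 := ⟨_, rfl⟩
    have hK1 : (1 + H) / α < K := by
      rw [hK]
      push_cast
      have := Nat.le_ceil ((1 + H) / α)
      linarith
    have hK0 : (0 : ℝ) < K := by
      have : 0 < (1 + H) / α := by positivity
      linarith
    have hKn : 0 < K := by exact_mod_cast hK0
    have h1 := hN (ε / ((2 * H + 1) * √K)) (by positivity)
    have h2 : Tendsto (fun x : ℕ => K * x) atTop atTop :=
      tendsto_atTop_mono (fun x => Nat.le_mul_of_pos_left x hKn) tendsto_id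
    filter_upwards [h2.eventually h1, eventually_ge_atTop 1] with x hx hx1
    have hx0 : (1 : ℝ) ≤ x := by exact_mod_cast hx1
    have h3 : (#(below D x) : ℝ) ≤ (2 * H + 1) * #((below D x).image f) := by
      rw [card_eq_sum_card_fiberwise (f := f) (t := (below D x).image f)
        (fun n hn => mem_coe.2 (mem_image_of_mem f hn))]
      push_cast
      calc ∑ u ∈ (below D x).image f, (#{n ∈ below D x | f n = u} : ℝ)
          ≤ ∑ u ∈ (below D x).image f, (2 * H + 1) := by
            refine sum_le_sum fun u _ => card_near _ (α * u ^ 2) H hH ?_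
            intro n hn
            obtain ⟨h4, h5⟩ := mem_filter.1 hn
            have h6 := hf n (mem_below.1 h4).2
            rwa [h5] at h6
        _ = _ := by
            rw [sum_const, nsmul_eq_mul]
            ring
    have h4 : (#((below D x).image f) : ℝ) ≤ #(below (B ∩ {n | IsSquare n}) (K * x)) := by
      have : #((below D x).image f) ≤ #(below (B ∩ {n | IsSquare n}) (K * x)) := by
        refine card_le_card_of_injOn (fun u => u ^ 2) ?_ ?_
        · intro u hu
          obtain ⟨n, hn, rfl⟩ := mem_image.1 hu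
          obtain ⟨h5, h6⟩ := mem_below.1 hn
          rw [SetLike.mem_coe, mem_below]
          refine ⟨?_, ?_, f n, by ring⟩
          · have h7 := (abs_le.1 (hf n h6)).1
            have h8 : (n : ℝ) < x := by exact_mod_cast h5
            have h9 : α * (f n : ℝ) ^ 2 < (1 + H) * x := by nlinarith
            have h10 : (f n : ℝ) ^ 2 < (1 + H) / α * x := by
              rw [div_mul_eq_mul_div, lt_div_iff₀ hα]
              linarith
            have h11 : (f n : ℝ) ^ 2 < K * x := by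
              have : (1 + H) / α * x ≤ K * x := by gcongr
              linarith
            show f n ^ 2 < K * x
            exact_mod_cast h11
          · rw [hB]
            exact ⟨n, h6, rfl⟩
        · intro u _ v _ huv
          have huv' : u ^ 2 = v ^ 2 := huv
          exact Nat.pow_left_injective (by norm_num : 2 ≠ 0) huv'
      exact_mod_cast this
    have h5 : √((K * x : ℕ) : ℝ) = √K * √x := by
      push_cast
      exact Real.sqrt_mul (by positivity) _
    rw [h5] at hx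
    have hsK : 0 < √(K : ℝ) := Real.sqrt_pos.2 hK0
    calc (#(below D x) : ℝ) ≤ (2 * H + 1) * #((below D x).image f) := h3
      _ ≤ (2 * H + 1) * (ε / ((2 * H + 1) * √K) * (√K * √x)) := by
          gcongr
          exact h4.trans hx
      _ = ε * √x := by field_simp
  have hm := hmany B hBn
  have ht : ∀ k ∈ B, s (Nat.sqrt k) ∈ A ∧ |((s (Nat.sqrt k) : ℕ) : ℝ) - α * k| ≤ H := by
    intro k hk
    obtain ⟨h1, h2, h3⟩ := hsq k hk
    refine ⟨(hDm _ h1).1, ?_⟩
    have h4 := hf _ h1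
    rw [h2] at h4
    have h5 : ((Nat.sqrt k : ℕ) : ℝ) ^ 2 = k := by exact_mod_cast h3
    rwa [h5] at h4
  have hinj : ∀ k ∈ B, ∀ l ∈ B, s (Nat.sqrt k) = s (Nat.sqrt l) → k = l := by
    intro k hk l hl hkl
    obtain ⟨_, h2, h3⟩ := hsq k hk
    obtain ⟨_, h5, h6⟩ := hsq l hl
    rw [hkl, h5] at h2
    rw [← h3, ← h6, h2]
  rw [Filter.frequently_atTop]
  intro N
  have hlim : Tendsto (fun x : ℕ => √(Real.log x)) atTop atTop :=
    Real.tendsto_sqrt_atTop.comp (Real.tendsto_log_atTop.comp tendsto_natCast_atTop_atTop)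
  obtain ⟨M1, hM1⟩ := eventually_atTop.1 (hlim.eventually_ge_atTop
    (max 2 (6 / c * Real.log (4 * H + 1))))
  obtain ⟨M2, hM2⟩ := exists_nat_ge ((N + 2 * H + Real.exp (Real.exp 1)) / α)
  obtain ⟨M3, hM3⟩ := exists_nat_ge (α + 2 * H)
  obtain ⟨m, hm0, hm1⟩ := hm (M1 + M2 + M3 + 1)
  have hpos : 0 < rep B m := by
    have h1 : (0 : ℝ) < rep B m := lt_of_lt_of_le (Real.exp_pos _) hm1
    exact_mod_cast h1
  obtain ⟨w, hw1, hw2⟩ := shift hH ht hinj hpos
  have hmr1 : (1 : ℝ) ≤ m := by exact_mod_cast (by omega : 1 ≤ m)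
  have hmr2 : (M2 : ℝ) ≤ m := by exact_mod_cast (by omega : M2 ≤ m)
  have hmr3 : (M3 : ℝ) ≤ m := by exact_mod_cast (by omega : M3 ≤ m)
  have hw3 := abs_le.1 hw1
  have hwlow : (N : ℝ) + Real.exp (Real.exp 1) ≤ w := by
    have h1 : (N + 2 * H + Real.exp (Real.exp 1)) / α ≤ m := hM2.trans hmr2
    rw [div_le_iff₀ hα] at h1
    linarith [hw3.1]
  have hee : 0 < Real.exp (Real.exp 1) := Real.exp_pos _
  have hwN : N ≤ w := by
    have h1 : (N : ℝ) ≤ w := by linarith
    exact_mod_cast h1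
  have hwup : (w : ℝ) ≤ (m : ℝ) ^ 2 := by
    have h1 : α + 2 * H ≤ m := hM3.trans hmr3
    have h2 : (w : ℝ) ≤ α * m + 2 * H := by linarith [hw3.2]
    have h3 : 2 * H ≤ 2 * H * m := by nlinarith
    nlinarith
  refine ⟨w, hwN, ?_⟩
  have hN0 : (0 : ℝ) ≤ N := Nat.cast_nonneg _
  have h1 := Pool.Agent.Helper5.SQ.ratio_mono (by linarith : Real.exp (Real.exp 1) ≤ (w : ℝ)) hwup
  -- logarithms
  obtain ⟨l, hl⟩ : ∃ l, l = Real.log m := ⟨_, rfl⟩
  have hq := hM1 m (by omega)
  rw [← hl] at hq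
  have hq1 : 2 ≤ √l := (le_max_left _ _).trans hq
  have hq2 : 6 / c * Real.log (4 * H + 1) ≤ √l := (le_max_right _ _).trans hq
  have hl4 : 4 ≤ l := by
    have h2 : (2 : ℝ) ^ 2 ≤ l := (Real.le_sqrt' (by norm_num)).1 hq1
    linarith
  have hll : 0 < Real.log l := Real.log_pos (by linarith)
  have h2 : Real.log ((m : ℝ) ^ 2) / Real.log (Real.log ((m : ℝ) ^ 2)) ≤ 2 * (l / Real.log l) := by
    rw [Real.log_pow, ← hl]
    push_cast
    have h3 : Real.log l ≤ Real.log (2 * l) := Real.log_le_log (by linarith) (by linarith)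
    calc 2 * l / Real.log (2 * l) ≤ 2 * l / Real.log l := by gcongr
      _ = _ := by ring
  have h3 := ratio_ge (y := l) (by linarith)
  have h4 : Real.log (4 * H + 1) ≤ c / 3 * (l / Real.log l) := by
    have h5 : Real.log (4 * H + 1) ≤ c / 6 * √l := by
      have h6 := mul_le_mul_of_nonneg_left hq2 (by positivity : 0 ≤ c / 6)
      have h7 : c / 6 * (6 / c * Real.log (4 * H + 1)) = Real.log (4 * H + 1) := by field_simp
      linarith
    have h8 := mul_le_mul_of_nonneg_left h3 (by positivity : 0 ≤ c / 3)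
    linarith
  rw [← hl] at hm1
  have h5 : Real.exp (c / 3 * (Real.log w / Real.log (Real.log w))) * (4 * H + 1) ≤
      (4 * H + 1) * rep A w := by
    calc Real.exp (c / 3 * (Real.log w / Real.log (Real.log w))) * (4 * H + 1)
        = Real.exp (c / 3 * (Real.log w / Real.log (Real.log w)) + Real.log (4 * H + 1)) := by
          rw [Real.exp_add, Real.exp_log (by positivity)]
      _ ≤ Real.exp (c * (l / Real.log l)) := by
          apply Real.exp_le_exp.2
          have h6 := mul_le_mul_of_nonneg_left (h1.trans h2) (by positivity : 0 ≤ c / 3)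
          linarith
      _ ≤ rep B m := hm1
      _ ≤ _ := hw2
  rw [mul_comm] at h5
  exact le_of_mul_le_mul_left h5 (by positivity)

end Pool.Agent.Helper25.SQ
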