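import Mathlib
import Pool.Agent.Helper38.SP.En

/-!
The number of solutions of `a² + b² = c² + d²`.
-/

set_option autoImplicit false

open Finset

namespace Pool.Agent.Helper25.SQ

/-- the solutions of `u v = u' v'` with `u, u' ≤ M`, `v, v' ≤ 2 M` -/
def mul4 (M : ℕ) : Finset ((ℕ × ℕ) × (ℕ × ℕ)) :=
  ((Icc 1 M ×ˢ Icc 1 (2 * M)) ×ˢ (Icc 1 M ×ˢ Icc 1 (2 * M))).filter
    (fun q => q.1.1 * q.1.2 = q.2.1 * q.2.2)

/-- the common divisor and the quotients -/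
theorem param {u v u' v' : ℕ} (hu : 0 < u) (hv : 0 < v) (h : u * v = u' * v') (hu' : 0 < u') :
    ∃ g s t k : ℕ, g = Nat.gcd u u' ∧ s = u / Nat.gcd u u' ∧ t = u' / Nat.gcd u u' ∧
      k = v / (u' / Nat.gcd u u') ∧ u = g * s ∧ u' = g * t ∧ v = t * k ∧ v' = s * k ∧
      0 < g ∧ 0 < s ∧ 0 < t ∧ 0 < k := by
  obtain ⟨g, hg⟩ : ∃ g, g = Nat.gcd u u' := ⟨_, rfl⟩
  have hg0 : 0 < g := by rw [hg]; exact Nat.gcd_pos_of_pos_left _ hu
  obtain ⟨s, hs⟩ : g ∣ u := by rw [hg]; exact Nat.gcd_dvd_left _ _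
  obtain ⟨t, ht⟩ : g ∣ u' := by rw [hg]; exact Nat.gcd_dvd_right _ _
  have hs1 : u / g = s := by rw [hs]; exact Nat.mul_div_cancel_left _ hg0
  have ht1 : u' / g = t := by rw [ht]; exact Nat.mul_div_cancel_left _ hg0
  have hs0 : 0 < s := by
    rcases Nat.eq_zero_or_pos s with h0 | h0
    · rw [h0] at hs; omega
    · exact h0
  have ht0 : 0 < t := by
    rcases Nat.eq_zero_or_pos t with h0 | h0
    · rw [h0] at ht; omega
    · exact h0
  have hco : Nat.Coprime s t := by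
    have h1 := Nat.coprime_div_gcd_div_gcd (m := u) (n := u') (by rw [← hg]; exact hg0)
    rw [← hg, hs1, ht1] at h1
    exact h1
  have h2 : s * v = t * v' := by
    have h3 : g * (s * v) = g * (t * v') := by rw [← mul_assoc, ← mul_assoc, ← hs, ← ht]; exact h
    exact Nat.eq_of_mul_eq_mul_left hg0 h3
  obtain ⟨k, hk⟩ : t ∣ v := (hco.symm).dvd_of_dvd_mul_left ⟨v', h2⟩
  have hk0 : 0 < k := by
    rcases Nat.eq_zero_or_pos k with h0 | h0
    · rw [h0] at hk; omega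
    · exact h0
  have h4 : v' = s * k := by
    have h5 : t * v' = t * (s * k) := by rw [← h2, hk]; ring
    exact Nat.eq_of_mul_eq_mul_left ht0 h5
  refine ⟨g, s, t, k, hg, ?_, ?_, ?_, hs, ht, hk, h4, hg0, hs0, ht0, hk0⟩
  · rw [← hg, hs1]
  · rw [← hg, ht1]
  · rw [← hg, ht1, hk, Nat.mul_div_cancel_left _ ht0]

theorem card_mul4_le (M : ℕ) : (mul4 M).card ≤
    ∑ p ∈ Icc 1 M ×ˢ Icc 1 M, (M / max p.1 p.2) * (2 * M / max p.1 p.2) := by
  have h1 : ∑ p ∈ Icc 1 M ×ˢ Icc 1 M, (M / max p.1 p.2) * (2 * M / max p.1 p.2) =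
      ((Icc 1 M ×ˢ Icc 1 M).sigma (fun p : ℕ × ℕ =>
        Icc 1 (M / max p.1 p.2) ×ˢ Icc 1 (2 * M / max p.1 p.2))).card := by
    rw [card_sigma]
    refine sum_congr rfl (fun p _ => ?_)
    rw [card_product, Nat.card_Icc, Nat.card_Icc, Nat.add_sub_cancel, Nat.add_sub_cancel]
  rw [h1]
  refine card_le_card_of_injOn (fun q => ⟨(q.1.1 / Nat.gcd q.1.1 q.2.1,
    q.2.1 / Nat.gcd q.1.1 q.2.1), (Nat.gcd q.1.1 q.2.1, q.1.2 / (q.2.1 / Nat.gcd q.1.1 q.2.1))⟩)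
    ?_ ?_
  · rintro ⟨⟨u, v⟩, u', v'⟩ h
    simp only [mul4, coe_filter, mem_product, mem_Icc, Set.mem_ofPred_eq] at h
    obtain ⟨⟨⟨⟨h1, h2⟩, h3, h4⟩, ⟨h5, h6⟩, h7, h8⟩, h9⟩ := h
    obtain ⟨g, s, t, k, e1, e2, e3, e4, e5, e6, e7, e8, hg, hs, ht, hk⟩ :=
      param (by omega : 0 < u) (by omega : 0 < v) h9 (by omega : 0 < u')
    rw [mem_coe, mem_sigma, mem_product, mem_product]
    simp only [mem_Icc]
    rw [← e4, ← e3, ← e2, ← e1]
    have hm : 0 < max s t := lt_of_lt_of_le hs (le_max_left _ _)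
    have g1 : s ≤ g * s := Nat.le_mul_of_pos_left _ hg
    have g2 : t ≤ g * t := Nat.le_mul_of_pos_left _ hg
    refine ⟨⟨⟨hs, by omega⟩, ht, by omega⟩, ⟨hg, ?_⟩, hk, ?_⟩
    · rw [Nat.le_div_iff_mul_le hm]
      rcases le_total s t with h | h
      · rw [max_eq_right h]; omega
      · rw [max_eq_left h]; omega
    · rw [Nat.le_div_iff_mul_le hm]
      rcases le_total s t with h | h
      · rw [max_eq_right h, mul_comm]; omega
      · rw [max_eq_left h, mul_comm]; omega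
  · rintro ⟨⟨u, v⟩, u', v'⟩ h ⟨⟨x, y⟩, x', y'⟩ h' he
    simp only [mul4, coe_filter, mem_product, mem_Icc, Set.mem_ofPred_eq] at h h'
    obtain ⟨⟨⟨⟨h1, h2⟩, h3, h4⟩, ⟨h5, h6⟩, h7, h8⟩, h9⟩ := h
    obtain ⟨⟨⟨⟨i1, i2⟩, i3, i4⟩, ⟨i5, i6⟩, i7, i8⟩, i9⟩ := h'
    obtain ⟨g, s, t, k, e1, e2, e3, e4, e5, e6, e7, e8, hg, hs, ht, hk⟩ :=
      param (by omega : 0 < u) (by omega : 0 < v) h9 (by omega : 0 < u')
    obtain ⟨g', s', t', k', f1, f2, f3, f4, f5, f6, f7, f8, hg', hs', ht', hk'⟩ :=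
      param (by omega : 0 < x) (by omega : 0 < y) i9 (by omega : 0 < x')
    simp only [Sigma.mk.injEq, Prod.mk.injEq, heq_eq_eq] at he
    rw [← e4, ← e3, ← e2, ← e1, ← f4, ← f3, ← f2, ← f1] at he
    obtain ⟨⟨r1, r2⟩, r3, r4⟩ := he
    simp only [Prod.mk.injEq]
    rw [e5, e6, e7, e8, f5, f6, f7, f8, r1, r2, r3, r4]
    exact ⟨⟨rfl, rfl⟩, rfl, rfl⟩

theorem harm (M : ℕ) : ∑ s ∈ Icc 1 M, (1 : ℝ) / s ≤ 1 + Real.log M := by
  have h1 := harmonic_le_one_add_log M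
  have h2 : ((harmonic M : ℚ) : ℝ) = ∑ s ∈ Icc 1 M, (1 : ℝ) / s := by
    rw [harmonic_eq_sum_Icc]
    push_cast
    refine sum_congr rfl (fun s _ => ?_)
    rw [one_div]
  rw [← h2]
  exact h1

theorem mul4_le (M : ℕ) : ((mul4 M).card : ℝ) ≤ 4 * (M : ℝ) ^ 2 * (1 + Real.log M) := by
  have h1 : ((mul4 M).card : ℝ) ≤
      ∑ p ∈ Icc 1 M ×ˢ Icc 1 M, (((M / max p.1 p.2) * (2 * M / max p.1 p.2) : ℕ) : ℝ) := by
    exact_mod_cast card_mul4_le M
  refine h1.trans ?_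
  have h2 : ∀ p ∈ Icc 1 M ×ˢ Icc 1 M, (((M / max p.1 p.2) * (2 * M / max p.1 p.2) : ℕ) : ℝ) ≤
      (if p.2 ≤ p.1 then 2 * (M : ℝ) ^ 2 * (1 / (p.1 : ℝ) ^ 2) else 0) +
      (if p.1 ≤ p.2 then 2 * (M : ℝ) ^ 2 * (1 / (p.2 : ℝ) ^ 2) else 0) := by
    rintro ⟨s, t⟩ hp
    rw [mem_product, mem_Icc, mem_Icc] at hp
    obtain ⟨⟨hs, _⟩, ht, _⟩ := hp
    simp only at hs ht ⊢
    have hs' : (0 : ℝ) < s := by exact_mod_cast hs
    have ht' : (0 : ℝ) < t := by exact_mod_cast ht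
    have key : ∀ r : ℕ, (0 : ℝ) < r →
        (((M / r) * (2 * M / r) : ℕ) : ℝ) ≤ 2 * (M : ℝ) ^ 2 * (1 / (r : ℝ) ^ 2) := by
      intro r hr
      push_cast
      have a1 : ((M / r : ℕ) : ℝ) ≤ (M : ℝ) / r := Nat.cast_div_le
      have a2 : ((2 * M / r : ℕ) : ℝ) ≤ ((2 * M : ℕ) : ℝ) / r := Nat.cast_div_le
      push_cast at a2
      calc ((M / r : ℕ) : ℝ) * ((2 * M / r : ℕ) : ℝ) ≤ ((M : ℝ) / r) * (2 * M / r) :=
            mul_le_mul a1 a2 (Nat.cast_nonneg _) (by positivity)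
        _ = 2 * (M : ℝ) ^ 2 * (1 / (r : ℝ) ^ 2) := by field_simp
    rcases le_total s t with h | h
    · rw [max_eq_right h, if_pos h]
      have := key t ht'
      split_ifs
      · have : (0 : ℝ) ≤ 2 * (M : ℝ) ^ 2 * (1 / (s : ℝ) ^ 2) := by positivity
        linarith
      · linarith
    · rw [max_eq_left h, if_pos h]
      have := key s hs'
      split_ifs
      · have : (0 : ℝ) ≤ 2 * (M : ℝ) ^ 2 * (1 / (t : ℝ) ^ 2) := by positivity
        linarith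
      · linarith
  refine (sum_le_sum h2).trans ?_
  rw [sum_add_distrib]
  have h3 : ∑ p ∈ Icc 1 M ×ˢ Icc 1 M,
      (if p.2 ≤ p.1 then 2 * (M : ℝ) ^ 2 * (1 / (p.1 : ℝ) ^ 2) else 0) ≤
      2 * (M : ℝ) ^ 2 * (1 + Real.log M) := by
    rw [sum_product]
    have h4 : ∀ s ∈ Icc 1 M, ∑ t ∈ Icc 1 M,
        (if t ≤ s then 2 * (M : ℝ) ^ 2 * (1 / (s : ℝ) ^ 2) else 0) ≤
        2 * (M : ℝ) ^ 2 * (1 / (s : ℝ)) := by
      intro s hs
      rw [mem_Icc] at hs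
      have hs' : (0 : ℝ) < s := by exact_mod_cast hs.1
      rw [← sum_filter, sum_const, nsmul_eq_mul]
      have h5 : ((Icc 1 M).filter (fun t => t ≤ s)).card ≤ s := by
        have : (Icc 1 M).filter (fun t => t ≤ s) ⊆ Icc 1 s := by
          intro t ht
          rw [mem_filter, mem_Icc] at ht
          exact mem_Icc.2 ⟨ht.1.1, ht.2⟩
        have := card_le_card this
        rwa [Nat.card_Icc, Nat.add_sub_cancel] at this
      have h6 : (((Icc 1 M).filter (fun t => t ≤ s)).card : ℝ) ≤ s := by exact_mod_cast h5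
      calc (((Icc 1 M).filter (fun t => t ≤ s)).card : ℝ) * (2 * (M : ℝ) ^ 2 * (1 / (s : ℝ) ^ 2))
          ≤ s * (2 * (M : ℝ) ^ 2 * (1 / (s : ℝ) ^ 2)) :=
            mul_le_mul_of_nonneg_right h6 (by positivity)
        _ = 2 * (M : ℝ) ^ 2 * (1 / (s : ℝ)) := by field_simp
    refine (sum_le_sum h4).trans ?_
    rw [← mul_sum]
    exact mul_le_mul_of_nonneg_left (harm M) (by positivity)
  have h3' : ∑ p ∈ Icc 1 M ×ˢ Icc 1 M,
      (if p.1 ≤ p.2 then 2 * (M : ℝ) ^ 2 * (1 / (p.2 : ℝ) ^ 2) else 0) ≤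
      2 * (M : ℝ) ^ 2 * (1 + Real.log M) := by
    rw [sum_product, sum_comm]
    rw [sum_product] at h3
    exact h3
  linarith

/-- the solutions of `a² + b² = c² + d²` below `M` -/
def sq4 (M : ℕ) : Finset ((ℕ × ℕ) × (ℕ × ℕ)) :=
  ((range M ×ˢ range M) ×ˢ (range M ×ˢ range M)).filter
    (fun q => q.1.1 ^ 2 + q.1.2 ^ 2 = q.2.1 ^ 2 + q.2.2 ^ 2)

theorem sq4_le (M : ℕ) : ((sq4 M).card : ℝ) ≤ (M : ℝ) ^ 2 * (9 + 8 * Real.log M) := by
  classical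
  have h0 : sq4 M = ((sq4 M).filter (fun q => q.1.1 = q.2.1)) ∪
      (((sq4 M).filter (fun q => q.2.1 < q.1.1)) ∪ ((sq4 M).filter (fun q => q.1.1 < q.2.1))) := by
    ext q
    simp only [mem_union, mem_filter]
    constructor
    · intro h
      rcases lt_trichotomy q.1.1 q.2.1 with h1 | h1 | h1
      · exact Or.inr (Or.inr ⟨h, h1⟩)
      · exact Or.inl ⟨h, h1⟩
      · exact Or.inr (Or.inl ⟨h, h1⟩)
    · rintro (h | h | h) <;> exact h.1
  have h1 : ((sq4 M).filter (fun q => q.1.1 = q.2.1)).card ≤ M * M := by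
    have h2 : M * M = (range M ×ˢ range M).card := by rw [card_product, card_range]
    rw [h2]
    refine card_le_card_of_injOn (fun q => q.1) ?_ ?_
    · rintro ⟨⟨a, b⟩, c, d⟩ h
      simp only [sq4, coe_filter, mem_filter, mem_product, Set.mem_ofPred_eq] at h
      exact mem_coe.2 (mem_product.2 h.1.1.1)
    · rintro ⟨⟨a, b⟩, c, d⟩ h ⟨⟨a', b'⟩, c', d'⟩ h' he
      simp only [sq4, coe_filter, mem_filter, mem_product, Set.mem_ofPred_eq] at h h'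
      obtain ⟨⟨_, h3⟩, h4⟩ := h
      obtain ⟨⟨_, h3'⟩, h4'⟩ := h'
      simp only [Prod.mk.injEq] at he ⊢
      obtain ⟨r1, r2⟩ := he
      have e1 : b ^ 2 = d ^ 2 := by rw [h4] at h3; omega
      have e2 : b' ^ 2 = d' ^ 2 := by rw [h4'] at h3'; omega
      have e3 : b = d := Nat.pow_left_injective (n := 2) (by norm_num) e1
      have e4 : b' = d' := Nat.pow_left_injective (n := 2) (by norm_num) e2
      omega
  have h2 : ((sq4 M).filter (fun q => q.2.1 < q.1.1)).card ≤ (mul4 M).card := by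
    refine card_le_card_of_injOn (fun q => ((q.1.1 - q.2.1, q.1.1 + q.2.1),
      (q.2.2 - q.1.2, q.2.2 + q.1.2))) ?_ ?_
    · rintro ⟨⟨a, b⟩, c, d⟩ h
      simp only [sq4, coe_filter, mem_filter, mem_product, mem_range, Set.mem_ofPred_eq] at h
      obtain ⟨⟨⟨⟨ha, hb⟩, hc, hd⟩, h3⟩, h4⟩ := h
      obtain ⟨u, rfl⟩ := Nat.exists_eq_add_of_lt h4
      have h5 : b < d := by
        by_contra hcon
        have h6 : d ≤ b := not_lt.1 hcon
        nlinarith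
      obtain ⟨w, rfl⟩ := Nat.exists_eq_add_of_lt h5
      rw [mem_coe]
      simp only [mul4, mem_filter, mem_product, mem_Icc]
      refine ⟨⟨⟨by omega, by omega⟩, by omega, by omega⟩, ?_⟩
      have e1 : c + u + 1 - c = u + 1 := by omega
      have e2 : b + w + 1 - b = w + 1 := by omega
      rw [e1, e2]
      nlinarith
    · rintro ⟨⟨a, b⟩, c, d⟩ h ⟨⟨a', b'⟩, c', d'⟩ h' he
      simp only [sq4, coe_filter, mem_filter, mem_product, mem_range, Set.mem_ofPred_eq] at h h'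
      obtain ⟨⟨⟨⟨ha, hb⟩, hc, hd⟩, h3⟩, h4⟩ := h
      obtain ⟨⟨⟨⟨ha', hb'⟩, hc', hd'⟩, h3'⟩, h4'⟩ := h'
      have h5 : b < d := by
        by_contra hcon
        have h6 : d ≤ b := not_lt.1 hcon
        nlinarith
      have h5' : b' < d' := by
        by_contra hcon
        have h6 : d' ≤ b' := not_lt.1 hcon
        nlinarith
      simp only [Prod.mk.injEq] at he ⊢
      omega
  have h3 : ((sq4 M).filter (fun q => q.1.1 < q.2.1)).card ≤
      ((sq4 M).filter (fun q => q.2.1 < q.1.1)).card := by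
    refine card_le_card_of_injOn (fun q => (q.2, q.1)) ?_ ?_
    · rintro ⟨⟨a, b⟩, c, d⟩ h
      simp only [sq4, coe_filter, mem_filter, mem_product, mem_range, Set.mem_ofPred_eq] at h ⊢
      exact ⟨⟨⟨h.1.1.2, h.1.1.1⟩, h.1.2.symm⟩, h.2⟩
    · rintro ⟨⟨a, b⟩, c, d⟩ _ ⟨⟨a', b'⟩, c', d'⟩ _ he
      simp only [Prod.mk.injEq] at he ⊢
      tauto
  have h4 : (sq4 M).card ≤ M * M + 2 * (mul4 M).card := by
    have h5 := card_union_le ((sq4 M).filter (fun q => q.1.1 = q.2.1))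
      (((sq4 M).filter (fun q => q.2.1 < q.1.1)) ∪ ((sq4 M).filter (fun q => q.1.1 < q.2.1)))
    have h6 := card_union_le ((sq4 M).filter (fun q => q.2.1 < q.1.1))
      ((sq4 M).filter (fun q => q.1.1 < q.2.1))
    rw [← h0] at h5
    omega
  have h5 : ((sq4 M).card : ℝ) ≤ (M : ℝ) * M + 2 * ((mul4 M).card : ℝ) := by exact_mod_cast h4
  have h6 := mul4_le M
  nlinarith

end Pool.Agent.Helper25.SQ
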