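import Pool.Agent.Helper25.RC.Thick

/-!
The choice of the parameters in the bound for the number of squares.
-/

set_option autoImplicit false

open Finset Filter

namespace Pool.Agent.Helper25.SQ

open Pool.Agent.Helper25.RC

/-- the inequality for given numbers `r`, `K` -/
def Ld (C : ℕ) : Prop := 1 ≤ C ∧ ∀ (A : Set ℕ) (x M r K : ℕ) (U : Finset ℕ), 2 ≤ x →
  (∀ u ∈ U, u ^ 2 ∈ A ∧ u ^ 2 < x ∧ u < M) → M ≤ x → 1 ≤ r → U.Nonempty →
  32 * r * M ≤ K * #U → ((C * (K * r)) ^ (3 * r)) ^ 2 ≤ M →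
  ∃ n : ℕ, n < 2 * x ∧ (2 : ℝ) ^ r * (#U : ℝ) ^ 2 ≤ 4 * x * rep A n

theorem roots (A : Set ℕ) (x : ℕ) : ∃ U : Finset ℕ,
    (∀ u ∈ U, u ^ 2 ∈ A ∧ u ^ 2 < x ∧ u < Nat.sqrt x + 1) ∧
    #U = #(below (A ∩ {n | IsSquare n}) x) := by
  classical
  have h : ∀ a ∈ below (A ∩ {n | IsSquare n}) x, Nat.sqrt a ^ 2 = a := by
    intro a ha
    obtain ⟨_, _, k, rfl⟩ := mem_below.1 ha
    rw [Nat.sqrt_eq, pow_two]
  refine ⟨(below (A ∩ {n | IsSquare n}) x).image Nat.sqrt, ?_, card_image_of_injOn ?_⟩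
  · intro u hu
    obtain ⟨a, ha, rfl⟩ := mem_image.1 hu
    rw [h a ha]
    have h1 := mem_below.1 ha
    exact ⟨h1.2.1, h1.1, Nat.lt_succ_of_le (Nat.sqrt_le_sqrt h1.1.le)⟩
  · intro a ha b hb hab
    rw [← h a ha, ← h b hb, hab]

theorem sqrt_facts {x : ℕ} (hx : 2 ≤ x) : Nat.sqrt x + 1 ≤ x ∧
    √(x : ℝ) ≤ ((Nat.sqrt x + 1 : ℕ) : ℝ) ∧ ((Nat.sqrt x + 1 : ℕ) : ℝ) ≤ 2 * √(x : ℝ) := by
  refine ⟨Nat.sqrt_lt_self (by omega), ?_, ?_⟩
  · push_cast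
    exact Real.real_sqrt_le_nat_sqrt_succ
  · push_cast
    have h1 := Real.nat_sqrt_le_real_sqrt (a := x)
    have h2 : 1 ≤ √(x : ℝ) := by
      rw [Real.one_le_sqrt]
      exact_mod_cast (by omega : 1 ≤ x)
    linarith

/-- a value at least one -/
theorem one_value {A : Set ℕ} {x : ℕ} (h : (below (A ∩ {n | IsSquare n}) x).Nonempty) :
    ∃ n : ℕ, n < 2 * x ∧ (1 : ℝ) ≤ rep A n := by
  obtain ⟨a, ha⟩ := h
  have h1 := mem_below.1 ha
  refine ⟨a + a, by omega, ?_⟩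
  have : 1 ≤ rep A (a + a) := by
    classical
    unfold rep
    refine card_pos.2 ⟨(a, a), ?_⟩
    simp only [mem_filter, HasAntidiagonal.mem_antidiagonal]
    exact ⟨trivial, h1.2.1, h1.2.1⟩
  exact_mod_cast this

/-- the number of squares is at most `2 √x` -/
theorem card_le_sqrt (A : Set ℕ) {x : ℕ} (hx : 2 ≤ x) :
    (#(below (A ∩ {n | IsSquare n}) x) : ℝ) ≤ 2 * √(x : ℝ) := by
  obtain ⟨U, hU, hc⟩ := roots A x
  rw [← hc]
  have h1 : #U ≤ Nat.sqrt x + 1 := by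
    have h2 : U ⊆ range (Nat.sqrt x + 1) := fun u hu => mem_range.2 (hU u hu).2.2
    exact (card_le_card h2).trans (le_of_eq (card_range _))
  calc (#U : ℝ) ≤ ((Nat.sqrt x + 1 : ℕ) : ℝ) := by exact_mod_cast h1
    _ ≤ _ := (sqrt_facts hx).2.2

/-- the step with given `r` in real form -/
theorem step {C : ℕ} (h : Ld C) {A : Set ℕ} {x r : ℕ} (hx : 2 ≤ x) (hr : 1 ≤ r) {κ w : ℝ}
    (hκ : 1 ≤ κ) (hN : 2 * √(x : ℝ) ≤ κ * #(below (A ∩ {n | IsSquare n}) x))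
    (hw : 33 * C * (r : ℝ) ^ 2 * κ ≤ Real.exp w) (hwr : 12 * r * w ≤ Real.log x) :
    ∃ n : ℕ, n < 2 * x ∧
      (2 : ℝ) ^ r * (#(below (A ∩ {n | IsSquare n}) x) : ℝ) ^ 2 ≤ 4 * x * rep A n := by
  obtain ⟨hC, h⟩ := h
  obtain ⟨U, hU, hc⟩ := roots A x
  obtain ⟨hf1, hf2, hf3⟩ := sqrt_facts hx
  have hx0 : (0 : ℝ) < x := by positivity
  have hr1 : (1 : ℝ) ≤ r := by exact_mod_cast hr
  have hs : 0 < √(x : ℝ) := Real.sqrt_pos.2 hx0
  rw [← hc] at hN ⊢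
  obtain ⟨M, hM⟩ : ∃ M, M = Nat.sqrt x + 1 := ⟨_, rfl⟩
  rw [← hM] at hf1 hf2 hf3 hU
  have hU0 : (0 : ℝ) < #U := by
    by_contra hcon
    have : (#U : ℝ) = 0 := le_antisymm (not_lt.1 hcon) (Nat.cast_nonneg _)
    rw [this, mul_zero] at hN
    linarith
  obtain ⟨K, hK⟩ : ∃ K : ℕ, K = ⌈32 * r * M / (#U : ℝ)⌉₊ := ⟨_, rfl⟩
  have hK1 : 32 * r * M / (#U : ℝ) ≤ K := by rw [hK]; exact Nat.le_ceil _
  have hK2 : (K : ℝ) < 32 * r * M / (#U : ℝ) + 1 := by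
    rw [hK]
    exact Nat.ceil_lt_add_one (by positivity)
  have hK3 : 32 * r * M ≤ K * #U := by
    have := (div_le_iff₀ hU0).1 hK1
    exact_mod_cast this
  have hMU : (M : ℝ) / #U ≤ κ := by
    rw [div_le_iff₀ hU0]
    linarith
  have hK4 : (K : ℝ) ≤ 33 * r * κ := by
    have h1 : 32 * r * M / (#U : ℝ) = 32 * r * (M / (#U : ℝ)) := by ring
    have h2 : 32 * (r : ℝ) * (M / (#U : ℝ)) ≤ 32 * r * κ := by gcongr
    have h3 : 1 ≤ (r : ℝ) * κ := one_le_mul_of_one_le_of_one_le hr1 hκ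
    linarith
  have hC0 : (0 : ℝ) ≤ C := Nat.cast_nonneg _
  have hbase : ((C * (K * r) : ℕ) : ℝ) ≤ Real.exp w := by
    push_cast
    calc (C : ℝ) * (K * r) ≤ C * (33 * r * κ * r) := by gcongr
      _ = 33 * C * (r : ℝ) ^ 2 * κ := by ring
      _ ≤ _ := hw
  have hpow : (((C * (K * r)) ^ (3 * r)) ^ 2 : ℕ) ≤ M := by
    have h1 : ((((C * (K * r)) ^ (3 * r)) ^ 2 : ℕ) : ℝ) ≤ M := by
      rw [← pow_mul]
      push_cast
      have h2 : ((C : ℝ) * (K * r)) ^ (3 * r * 2) ≤ Real.exp w ^ (3 * r * 2) := by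
        push_cast at hbase
        gcongr
      refine h2.trans ?_
      rw [← Real.exp_nat_mul]
      have h3 : ((3 * r * 2 : ℕ) : ℝ) * w ≤ Real.log x / 2 := by
        push_cast
        linarith
      calc Real.exp (((3 * r * 2 : ℕ) : ℝ) * w) ≤ Real.exp (Real.log x / 2) :=
            Real.exp_le_exp.2 h3
        _ = √(x : ℝ) := by
          rw [Real.sqrt_eq_rpow, Real.rpow_def_of_pos hx0]
          congr 1
          ring
        _ ≤ M := hf2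
    exact_mod_cast h1
  exact h A x M r K U hx hU hf1 hr (card_pos.1 (by exact_mod_cast hU0)) hK3 hpow

/-- a power of two against an exponential -/
theorem two_pow_floor {y : ℝ} (hy : 0 ≤ y) :
    1 / 2 * Real.exp (3 / 5 * y) ≤ (2 : ℝ) ^ ⌊y⌋₊ := by
  have h1 := Nat.lt_floor_add_one y
  have hl := Real.log_two_gt_d9
  have h2 : (2 : ℝ) ^ ⌊y⌋₊ = Real.exp (Real.log 2 * ⌊y⌋₊) := by
    rw [mul_comm, Real.exp_nat_mul, Real.exp_log (by norm_num)]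
  have h3 : (1 / 2 : ℝ) = Real.exp (-Real.log 2) := by
    rw [Real.exp_neg, Real.exp_log (by norm_num)]
    norm_num
  rw [h2, h3, ← Real.exp_add]
  refine Real.exp_le_exp.2 ?_
  nlinarith

/-- Every set: the number of squares bounds the representation function from below. -/
theorem large {C : ℕ} (h : Ld C) : ∃ c : ℝ, 0 < c ∧ ∀ (A : Set ℕ) (x : ℕ), 2 ≤ x →
    ∃ n : ℕ, n < 2 * x ∧ c * ((#(below (A ∩ {n | IsSquare n}) x) : ℝ) ^ 2 / x) *
      Real.exp (c * √(Real.log x)) ≤ rep A n := by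
  obtain ⟨s0, hs0⟩ : ∃ s0 : ℝ, ∀ s : ℝ, s0 ≤ s → 33 * C * s ^ 2 ≤ Real.exp s := by
    have h1 := (Real.tendsto_exp_div_pow_atTop 2).eventually_ge_atTop (33 * (C : ℝ))
    obtain ⟨a, ha⟩ := eventually_atTop.1 h1
    refine ⟨max a 1, fun s hs => ?_⟩
    have h2 := ha s ((le_max_left _ _).trans hs)
    have h3 : 0 < s := lt_of_lt_of_le one_pos ((le_max_right _ _).trans hs)
    rwa [le_div_iff₀ (by positivity)] at h2
  obtain ⟨s1, hs1⟩ : ∃ s1 : ℝ, s1 = max s0 24 := ⟨_, rfl⟩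
  have hs24 : 24 ≤ s1 := by rw [hs1]; exact le_max_right _ _
  refine ⟨min (1 / 40) (Real.exp (-s1) / 4), by positivity, fun A x hx => ?_⟩
  obtain ⟨c, hc⟩ : ∃ c, c = min (1 / 40) (Real.exp (-s1) / 4) := ⟨_, rfl⟩
  rw [← hc]
  have hc0 : 0 < c := by rw [hc]; positivity
  have hc1 : c ≤ 1 / 40 := by rw [hc]; exact min_le_left _ _
  have hc2 : c ≤ Real.exp (-s1) / 4 := by rw [hc]; exact min_le_right _ _
  have hx0 : (0 : ℝ) < x := by positivity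
  obtain ⟨s, hs⟩ : ∃ s, s = √(Real.log x) := ⟨_, rfl⟩
  have hsn : 0 ≤ s := by rw [hs]; exact Real.sqrt_nonneg _
  have hss : s ^ 2 = Real.log x := by rw [hs]; exact Real.sq_sqrt (Real.log_natCast_nonneg x)
  rw [← hs]
  obtain ⟨N, hN⟩ : ∃ N : ℝ, N = #(below (A ∩ {n | IsSquare n}) x) := ⟨_, rfl⟩
  have hN2 : N ≤ 2 * √(x : ℝ) := by rw [hN]; exact card_le_sqrt A hx
  have hN0 : 0 ≤ N := by rw [hN]; positivity
  have hsq : (√(x : ℝ)) ^ 2 = x := Real.sq_sqrt hx0.le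
  have hNx : N ^ 2 / x ≤ 4 := by
    rw [div_le_iff₀ hx0]
    calc N ^ 2 ≤ (2 * √(x : ℝ)) ^ 2 := by gcongr
      _ = 4 * (x : ℝ) := by rw [mul_pow, hsq]; norm_num
  rcases (below (A ∩ {n | IsSquare n}) x).eq_empty_or_nonempty with he | hne
  · refine ⟨0, by omega, ?_⟩
    rw [he, card_empty]
    push_cast
    rw [show (0 : ℝ) ^ 2 / x = 0 by ring, mul_zero, zero_mul]
    positivity
  rw [← hN]
  by_cases hsmall : s < s1
  · obtain ⟨n, hn, h1⟩ := one_value hne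
    refine ⟨n, hn, le_trans ?_ h1⟩
    have h2 : Real.exp (c * s) ≤ Real.exp s1 := by
      refine Real.exp_le_exp.2 ?_
      nlinarith
    calc c * (N ^ 2 / x) * Real.exp (c * s) ≤ Real.exp (-s1) / 4 * 4 * Real.exp s1 := by gcongr
      _ = 1 := by
        rw [Real.exp_neg]
        field_simp
  push Not at hsmall
  by_cases hfew : Real.exp s * N < 2 * √(x : ℝ)
  · obtain ⟨n, hn, h1⟩ := one_value hne
    refine ⟨n, hn, le_trans ?_ h1⟩
    have h2 : Real.exp s ^ 2 * N ^ 2 ≤ 4 * (x : ℝ) := by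
      calc Real.exp s ^ 2 * N ^ 2 = (Real.exp s * N) ^ 2 := by ring
        _ ≤ (2 * √(x : ℝ)) ^ 2 := by gcongr
        _ = 4 * (x : ℝ) := by rw [mul_pow, hsq]; norm_num
    have h3 : Real.exp (c * s) ≤ Real.exp s ^ 2 := by
      rw [← Real.exp_nat_mul]
      refine Real.exp_le_exp.2 ?_
      push_cast
      nlinarith
    calc c * (N ^ 2 / x) * Real.exp (c * s) ≤ 1 / 40 * (N ^ 2 / x) * Real.exp s ^ 2 := by gcongr
      _ = 1 / 40 * ((Real.exp s ^ 2 * N ^ 2) / x) := by ring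
      _ ≤ 1 / 40 * (4 * x / x) := by gcongr
      _ = 1 / 10 := by field_simp; norm_num
      _ ≤ 1 := by norm_num
  push Not at hfew
  have hs24' : 24 ≤ s := hs24.trans hsmall
  have hr1 : 1 ≤ ⌊s / 24⌋₊ := by
    refine Nat.le_floor ?_
    push_cast
    rw [le_div_iff₀ (by norm_num)]
    linarith
  have hfl : ((⌊s / 24⌋₊ : ℕ) : ℝ) ≤ s / 24 := Nat.floor_le (by positivity)
  have hes : 1 ≤ Real.exp s := Real.one_le_exp hsn
  obtain ⟨n, hn, h1⟩ := step h (A := A) hx hr1 (κ := Real.exp s) (w := 2 * s) hes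
    (by rw [← hN]; exact hfew) (by
      have h2 := hs0 s ((by rw [hs1]; exact le_max_left _ _ : s0 ≤ s1).trans hsmall)
      have h3 : ((⌊s / 24⌋₊ : ℕ) : ℝ) ^ 2 ≤ s ^ 2 := by
        have : ((⌊s / 24⌋₊ : ℕ) : ℝ) ≤ s := by linarith
        gcongr
      have hC0 : (0 : ℝ) ≤ C := Nat.cast_nonneg _
      calc 33 * C * ((⌊s / 24⌋₊ : ℕ) : ℝ) ^ 2 * Real.exp s ≤ 33 * C * s ^ 2 * Real.exp s := by
            gcongr
        _ ≤ Real.exp s * Real.exp s := by gcongr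
        _ = Real.exp (2 * s) := by rw [← Real.exp_add]; congr 1; ring)
    (by
      rw [← hss]
      nlinarith)
  refine ⟨n, hn, ?_⟩
  rw [← hN] at h1
  have h4 := two_pow_floor (y := s / 24) (by positivity)
  have h5 : Real.exp (c * s) ≤ Real.exp (3 / 5 * (s / 24)) := by
    refine Real.exp_le_exp.2 ?_
    nlinarith
  have h6 : c * (N ^ 2 / x) * Real.exp (c * s) * (4 * x) ≤ 4 * x * rep A n := by
    calc c * (N ^ 2 / x) * Real.exp (c * s) * (4 * x)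
        = 4 * c * Real.exp (c * s) * N ^ 2 := by field_simp
      _ ≤ 4 * (1 / 40) * Real.exp (3 / 5 * (s / 24)) * N ^ 2 := by gcongr
      _ ≤ 1 / 2 * Real.exp (3 / 5 * (s / 24)) * N ^ 2 := by
        have : 0 ≤ Real.exp (3 / 5 * (s / 24)) * N ^ 2 := by positivity
        nlinarith
      _ ≤ (2 : ℝ) ^ ⌊s / 24⌋₊ * N ^ 2 := by gcongr
      _ ≤ _ := h1
  have h7 : c * (N ^ 2 / x) * Real.exp (c * s) * (4 * x) ≤ rep A n * (4 * x) := by linarith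
  exact le_of_mul_le_mul_right h7 (by positivity)

end Pool.Agent.Helper25.SQ
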