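import Pool.Agent.Helper25.SQ.Param

/-!
Consequences of the bound for the number of squares.
-/

set_option autoImplicit false

open Finset Filter

namespace Pool.Agent.Helper25.SQ

open Pool.Agent.Helper25.RC

/-- A set with bounded representation function has few squares. -/
theorem few_exp {C : ℕ} (h : Ld C) : ∃ c : ℝ, 0 < c ∧ ∀ g : ℝ, ∃ C' : ℝ, ∀ A : Set ℕ,
    (∀ n : ℕ, (rep A n : ℝ) ≤ g) → ∀ x : ℕ, 2 ≤ x →
    (#(below (A ∩ {n | IsSquare n}) x) : ℝ) ≤ C' * √x * Real.exp (-(c * √(Real.log x))) := by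
  obtain ⟨c, hc, h1⟩ := large h
  refine ⟨c / 2, by positivity, fun g => ⟨√(max g 0 / c), fun A hA x hx => ?_⟩⟩
  obtain ⟨n, _, h2⟩ := h1 A x hx
  have hx0 : (0 : ℝ) < x := by positivity
  obtain ⟨s, hs⟩ : ∃ s, s = √(Real.log x) := ⟨_, rfl⟩
  obtain ⟨N, hN⟩ : ∃ N : ℝ, N = #(below (A ∩ {n | IsSquare n}) x) := ⟨_, rfl⟩
  have hN0 : 0 ≤ N := by rw [hN]; positivity
  rw [← hs, ← hN] at h2 ⊢
  have hg : 0 ≤ max g 0 := le_max_right _ _
  have h3 : c * (N ^ 2 / x) * Real.exp (c * s) ≤ max g 0 :=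
    h2.trans ((hA n).trans (le_max_left _ _))
  have h4 : N ^ 2 ≤ max g 0 / c * x * Real.exp (-(c * s)) := by
    rw [Real.exp_neg]
    have h5 : N ^ 2 * Real.exp (c * s) * c ≤ max g 0 * x := by
      have h6 := mul_le_mul_of_nonneg_right h3 hx0.le
      calc N ^ 2 * Real.exp (c * s) * c = c * (N ^ 2 / x) * Real.exp (c * s) * x := by field_simp
        _ ≤ _ := h6
    have he : 0 < Real.exp (c * s) := Real.exp_pos _
    rw [← div_eq_mul_inv, le_div_iff₀ he, div_mul_eq_mul_div, le_div_iff₀ hc]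
    exact h5
  have h5 : (√(max g 0 / c) * √(x : ℝ) * Real.exp (-(c / 2 * s))) ^ 2 =
      max g 0 / c * x * Real.exp (-(c * s)) := by
    rw [mul_pow, mul_pow, Real.sq_sqrt (by positivity), Real.sq_sqrt hx0.le, ← Real.exp_nat_mul]
    congr 2
    push_cast
    ring
  rw [← h5] at h4
  exact le_of_sq_le_sq h4 (by positivity)

theorem rep_le_succ (A : Set ℕ) (n : ℕ) : (rep A n : ℝ) ≤ n + 1 := by
  classical
  have : rep A n ≤ n + 1 := by
    unfold rep
    refine (card_filter_le _ _).trans ?_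
    rw [Finset.Nat.card_antidiagonal]
  exact_mod_cast this

/-- A set with a positive proportion of the squares has a large representation function. -/
theorem many {C : ℕ} (h : Ld C) : ∃ c : ℝ, 0 < c ∧ ∀ A : Set ℕ,
    ¬ Null (A ∩ {n | IsSquare n}) → ∀ N : ℕ, ∃ n : ℕ, N ≤ n ∧
      Real.exp (c * (Real.log n / Real.log (Real.log n))) ≤ rep A n := by
  refine ⟨1 / 100, by norm_num, fun A hA N0 => ?_⟩
  obtain ⟨ε, hε, hf⟩ := not_null_iff.1 hA
  obtain ⟨κ, hκ⟩ : ∃ κ : ℝ, κ = max 1 (2 / ε) := ⟨_, rfl⟩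
  have hκ1 : 1 ≤ κ := by rw [hκ]; exact le_max_left _ _
  have hκ2 : 2 / ε ≤ κ := by rw [hκ]; exact le_max_right _ _
  have hC0 : (0 : ℝ) ≤ C := Nat.cast_nonneg _
  have ht : Tendsto (fun x : ℕ => √(Real.log x)) atTop atTop :=
    Real.tendsto_sqrt_atTop.comp (Real.tendsto_log_atTop.comp tendsto_natCast_atTop_atTop)
  obtain ⟨x, hx1, hx2, hx3, hx4, hx5, hx6⟩ := (hf.and_eventually
    ((ht.eventually_ge_atTop (33 * C * κ)).and
    ((ht.eventually_ge_atTop (300 * (1 + Real.log (8 / ε ^ 2)))).and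
    ((ht.eventually_ge_atTop (120 * Real.log ((N0 + 100) * (8 / ε ^ 2)))).and
    ((ht.eventually_ge_atTop 72).and (eventually_ge_atTop 2)))))).exists
  have hx0 : (0 : ℝ) < x := by positivity
  obtain ⟨q, hq⟩ : ∃ q, q = √(Real.log x) := ⟨_, rfl⟩
  obtain ⟨l, hl⟩ : ∃ l, l = Real.log x := ⟨_, rfl⟩
  have hql : q ^ 2 = l := by rw [hq, hl]; exact Real.sq_sqrt (Real.log_natCast_nonneg x)
  rw [← hq] at hx2 hx3 hx4 hx5
  have hq0 : 0 < q := by linarith
  have hl1 : 5184 ≤ l := by rw [← hql]; nlinarith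
  obtain ⟨t, ht'⟩ : ∃ t, t = Real.log l := ⟨_, rfl⟩
  have ht2 : t ≤ 2 * q := by
    rw [ht', ← hql, Real.log_pow]
    have := Real.log_le_sub_one_of_pos hq0
    push_cast
    linarith
  have ht1 : 1 ≤ t := by
    rw [ht', Real.le_log_iff_exp_le (by linarith)]
    have := Real.exp_one_lt_d9
    linarith
  have ht0 : 0 < t := by linarith
  obtain ⟨y, hy⟩ : ∃ y, y = l / (36 * t) := ⟨_, rfl⟩
  have hy1 : q / 72 ≤ y := by
    rw [hy, le_div_iff₀ (by positivity), ← hql]
    nlinarith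
  have hy2 : y ≤ l := by
    rw [hy]
    exact div_le_self (by linarith) (by linarith)
  have hyt : 36 * y * t = l := by
    rw [hy]
    field_simp
  have hy0 : 0 ≤ y := by
    have : 0 ≤ q / 72 := by positivity
    linarith
  have hr1 : 1 ≤ ⌊y⌋₊ := by
    refine Nat.le_floor ?_
    push_cast
    refine le_trans ?_ hy1
    rw [le_div_iff₀ (by norm_num)]
    linarith
  have hfl : ((⌊y⌋₊ : ℕ) : ℝ) ≤ y := Nat.floor_le hy0
  obtain ⟨M, hM⟩ : ∃ M : ℝ, M = #(below (A ∩ {n | IsSquare n}) x) := ⟨_, rfl⟩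
  rw [← hM] at hx1
  obtain ⟨n, hn, h1⟩ := step h (A := A) hx6 hr1 (κ := κ) (w := 3 * t) hκ1
    (by
      rw [← hM]
      have h2 : 2 / ε * (ε * √(x : ℝ)) ≤ κ * M := by
        have : 0 ≤ ε * √(x : ℝ) := by positivity
        have : 0 ≤ κ := by linarith
        gcongr
      have h3 : 2 / ε * (ε * √(x : ℝ)) = 2 * √(x : ℝ) := by field_simp
      linarith)
    (by
      have h2 : Real.exp (3 * t) = l ^ 3 := by
        rw [show (3 : ℝ) * t = ((3 : ℕ) : ℝ) * t by norm_num, Real.exp_nat_mul, ht',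
          Real.exp_log (by linarith)]
      rw [h2]
      have h3 : ((⌊y⌋₊ : ℕ) : ℝ) ^ 2 ≤ l ^ 2 := by
        have : ((⌊y⌋₊ : ℕ) : ℝ) ≤ l := by linarith
        gcongr
      have h4 : 33 * C * κ ≤ l := by
        rw [← hql]
        nlinarith
      have h5 : 0 ≤ κ := by linarith
      calc 33 * C * ((⌊y⌋₊ : ℕ) : ℝ) ^ 2 * κ ≤ 33 * C * l ^ 2 * κ := by gcongr
        _ = 33 * C * κ * l ^ 2 := by ring
        _ ≤ l * l ^ 2 := by gcongr
        _ = l ^ 3 := by ring)
    (by
      rw [← hl]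
      calc 12 * ((⌊y⌋₊ : ℕ) : ℝ) * (3 * t) ≤ 12 * y * (3 * t) := by gcongr
        _ = 36 * y * t := by ring
        _ ≤ l := hyt.le)
  rw [← hM] at h1
  have h4 := two_pow_floor hy0
  obtain ⟨E, hE⟩ : ∃ E, E = Real.exp (l / (60 * t)) := ⟨_, rfl⟩
  have hE0 : 0 < E := by rw [hE]; exact Real.exp_pos _
  have h5 : 3 / 5 * y = l / (60 * t) := by
    rw [hy]
    field_simp
    norm_num
  rw [h5, ← hE] at h4
  have h6 : ε ^ 2 / 8 * E ≤ rep A n := by
    have h7 : (ε * √(x : ℝ)) ^ 2 ≤ M ^ 2 := by gcongr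
    rw [mul_pow, Real.sq_sqrt hx0.le] at h7
    have h8 : 1 / 2 * E * (ε ^ 2 * x) ≤ 4 * x * rep A n :=
      calc 1 / 2 * E * (ε ^ 2 * x) ≤ (2 : ℝ) ^ ⌊y⌋₊ * M ^ 2 := by gcongr
        _ ≤ _ := h1
    have h9 : ε ^ 2 / 8 * E * (4 * x) ≤ rep A n * (4 * x) := by linarith
    exact le_of_mul_le_mul_right h9 (by positivity)
  have hε8 : 0 < 8 / ε ^ 2 := by positivity
  have hqE : q / 120 ≤ l / (60 * t) := by
    rw [div_le_div_iff₀ (by norm_num) (by positivity), ← hql]
    nlinarith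
  have h10 : (N0 : ℝ) + 100 ≤ rep A n := by
    refine le_trans ?_ h6
    have h11 : ((N0 : ℝ) + 100) * (8 / ε ^ 2) ≤ E := by
      rw [hE, ← Real.log_le_iff_le_exp (by positivity)]
      linarith
    calc (N0 : ℝ) + 100 = ε ^ 2 / 8 * (((N0 : ℝ) + 100) * (8 / ε ^ 2)) := by field_simp
      _ ≤ _ := by gcongr
  have h12 := rep_le_succ A n
  have hn1 : (N0 : ℝ) + 99 ≤ n := by linarith
  refine ⟨n, ?_, le_trans ?_ h6⟩
  · have : (N0 : ℝ) ≤ n := by linarith
    exact_mod_cast this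
  have hn81 : (81 : ℝ) ≤ n := by
    have : (0 : ℝ) ≤ N0 := Nat.cast_nonneg _
    linarith
  have he := Real.exp_one_lt_d9
  have hlog3 : 1 ≤ Real.log 3 := by
    rw [Real.le_log_iff_exp_le (by norm_num)]
    linarith
  have hu1 : 4 ≤ Real.log n := by
    have h13 : Real.log 81 = 4 * Real.log 3 := by
      rw [show (81 : ℝ) = 3 ^ 4 by norm_num, Real.log_pow]
      norm_num
    have h14 : Real.log 81 ≤ Real.log n := Real.log_le_log (by norm_num) hn81
    linarith
  have hu2 : Real.log n ≤ l + 1 := by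
    have h13 : (n : ℝ) ≤ 2 * x := by exact_mod_cast hn.le
    have h14 : Real.log n ≤ Real.log (2 * x) := Real.log_le_log (by linarith) h13
    rw [Real.log_mul (by norm_num) (by positivity)] at h14
    have := Real.log_two_lt_d9
    linarith
  have hm : Real.log (l + 1) / (l + 1) ≤ Real.log (Real.log n) / Real.log n :=
    Real.log_div_self_antitoneOn (show Real.exp 1 ≤ Real.log n by linarith)
      (show Real.exp 1 ≤ l + 1 by linarith) hu2
  have hl1t : t ≤ Real.log (l + 1) := by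
    rw [ht']
    exact Real.log_le_log (by linarith) (by linarith)
  have hll : 0 < Real.log (Real.log n) := Real.log_pos (by linarith)
  have hratio : Real.log n / Real.log (Real.log n) ≤ (l + 1) / t := by
    rw [div_le_div_iff₀ (by linarith) (by linarith)] at hm
    rw [div_le_div_iff₀ hll ht0]
    have h15 : Real.log n * t ≤ Real.log n * Real.log (l + 1) := by gcongr
    linarith
  have hfin : 1 / 100 * (Real.log n / Real.log (Real.log n)) + Real.log (8 / ε ^ 2) ≤
      l / (60 * t) := by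
    have h16 : 1 / 100 * (Real.log n / Real.log (Real.log n)) ≤ 1 / 100 * ((l + 1) / t) := by
      gcongr
    have h17 : 1 / 100 * ((l + 1) / t) = l / (100 * t) + 1 / (100 * t) := by
      field_simp
    have h18 : 1 / (100 * t) ≤ 1 := by
      rw [div_le_one (by positivity)]
      linarith
    have h19 : l / (60 * t) = l / (100 * t) + l / (150 * t) := by
      field_simp
      norm_num
    have h20 : q / 300 ≤ l / (150 * t) := by
      rw [div_le_div_iff₀ (by norm_num) (by positivity), ← hql]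
      nlinarith
    linarith
  calc Real.exp (1 / 100 * (Real.log n / Real.log (Real.log n)))
      ≤ Real.exp (l / (60 * t) - Real.log (8 / ε ^ 2)) := Real.exp_le_exp.2 (by linarith)
    _ = ε ^ 2 / 8 * E := by
      rw [Real.exp_sub, Real.exp_log hε8, ← hE]
      field_simp

end Pool.Agent.Helper25.SQ
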