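import Pool.Agent.Helper25.SQ.Mul
import Pool.Agent.Helper38.SP.One
import Pool.Agent.Helper5.RC.Sharp

/-!
Many squares with few representations in mean square.
-/

set_option autoImplicit false

open Finset Filter

namespace Pool.Agent.Helper25.SQ

open Pool.Agent.Helper38.SP (quad EX EX_quad select sol_eq_quad)
open Pool.Agent.Helper25.RC (below rep mem_below)

/-- the squares in the block, shifted -/
def RR (j : ℕ) : Finset ℕ :=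
  (Ico (Nat.sqrt (2 ^ j) + 1) (Nat.sqrt (3 * 2 ^ (j - 1)))).image (fun k => k ^ 2 - 2 ^ j)

theorem RR_spec {j b : ℕ} (hj : 1 ≤ j) (hb : b ∈ RR j) :
    2 * b < 2 ^ j ∧ ∃ k, k < Nat.sqrt (3 * 2 ^ (j - 1)) ∧ 2 ^ j + b = k ^ 2 := by
  unfold RR at hb
  rw [mem_image] at hb
  obtain ⟨k, hk, rfl⟩ := hb
  rw [mem_Ico] at hk
  have h1 : 2 ^ j < k ^ 2 := by
    have h2 : Nat.sqrt (2 ^ j) < k := by omega
    rw [pow_two]
    exact Nat.sqrt_lt.1 h2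
  have h3 : k ^ 2 < 3 * 2 ^ (j - 1) := by
    have h4 : Nat.sqrt (3 * 2 ^ (j - 1)) ^ 2 ≤ 3 * 2 ^ (j - 1) := Nat.sqrt_le' _
    have h5 : k ^ 2 < Nat.sqrt (3 * 2 ^ (j - 1)) ^ 2 :=
      Nat.pow_lt_pow_left hk.2 (by norm_num)
    omega
  have h6 : 2 ^ j = 2 * 2 ^ (j - 1) := by
    obtain ⟨i, rfl⟩ : ∃ i, j = i + 1 := ⟨j - 1, by omega⟩
    rw [Nat.add_sub_cancel, pow_succ]
    ring
  refine ⟨by omega, k, hk.2, by omega⟩

theorem RR_inj {j : ℕ} : Set.InjOn (fun k : ℕ => k ^ 2 - 2 ^ j)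
    (Ico (Nat.sqrt (2 ^ j) + 1) (Nat.sqrt (3 * 2 ^ (j - 1))) : Set ℕ) := by
  intro k hk l hl h
  rw [mem_coe, mem_Ico] at hk hl
  have h1 : 2 ^ j < k ^ 2 := by
    rw [pow_two]
    exact Nat.sqrt_lt.1 (by omega)
  have h2 : 2 ^ j < l ^ 2 := by
    rw [pow_two]
    exact Nat.sqrt_lt.1 (by omega)
  simp only at h
  exact Nat.pow_left_injective (n := 2) (by norm_num) (by simp only; omega)

theorem card_RR (j : ℕ) :
    (RR j).card = Nat.sqrt (3 * 2 ^ (j - 1)) - (Nat.sqrt (2 ^ j) + 1) := by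
  unfold RR
  rw [card_image_of_injOn RR_inj, Nat.card_Ico]

theorem quad_RR {j : ℕ} (hj : 1 ≤ j) :
    (quad (RR j)).card ≤ (sq4 (Nat.sqrt (3 * 2 ^ (j - 1)))).card := by
  classical
  refine card_le_card_of_injOn (fun q => ((Nat.sqrt (2 ^ j + q.1.1), Nat.sqrt (2 ^ j + q.1.2)),
    (Nat.sqrt (2 ^ j + q.2.1), Nat.sqrt (2 ^ j + q.2.2)))) ?_ ?_
  · rintro ⟨⟨a, b⟩, c, d⟩ h
    simp only [quad, coe_filter, mem_product, Set.mem_ofPred_eq] at h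
    obtain ⟨⟨⟨ha, hb⟩, hc, hd⟩, h1⟩ := h
    obtain ⟨_, k1, l1, e1⟩ := RR_spec hj ha
    obtain ⟨_, k2, l2, e2⟩ := RR_spec hj hb
    obtain ⟨_, k3, l3, e3⟩ := RR_spec hj hc
    obtain ⟨_, k4, l4, e4⟩ := RR_spec hj hd
    rw [mem_coe]
    simp only [sq4, mem_filter, mem_product, mem_range]
    rw [e1, e2, e3, e4, Nat.sqrt_eq', Nat.sqrt_eq', Nat.sqrt_eq', Nat.sqrt_eq']
    exact ⟨⟨⟨l1, l2⟩, l3, l4⟩, by omega⟩
  · rintro ⟨⟨a, b⟩, c, d⟩ h ⟨⟨a', b'⟩, c', d'⟩ h' he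
    simp only [quad, coe_filter, mem_product, Set.mem_ofPred_eq] at h h'
    obtain ⟨⟨⟨ha, hb⟩, hc, hd⟩, h1⟩ := h
    obtain ⟨⟨⟨ha', hb'⟩, hc', hd'⟩, h1'⟩ := h'
    obtain ⟨_, k1, l1, e1⟩ := RR_spec hj ha
    obtain ⟨_, k2, l2, e2⟩ := RR_spec hj hb
    obtain ⟨_, k3, l3, e3⟩ := RR_spec hj hc
    obtain ⟨_, k4, l4, e4⟩ := RR_spec hj hd
    obtain ⟨_, k1', l1', e1'⟩ := RR_spec hj ha'
    obtain ⟨_, k2', l2', e2'⟩ := RR_spec hj hb'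
    obtain ⟨_, k3', l3', e3'⟩ := RR_spec hj hc'
    obtain ⟨_, k4', l4', e4'⟩ := RR_spec hj hd'
    simp only [Prod.mk.injEq] at he ⊢
    rw [e1, e2, e3, e4, e1', e2', e3', e4', Nat.sqrt_eq', Nat.sqrt_eq', Nat.sqrt_eq',
      Nat.sqrt_eq', Nat.sqrt_eq', Nat.sqrt_eq', Nat.sqrt_eq', Nat.sqrt_eq'] at he
    obtain ⟨⟨r1, r2⟩, r3, r4⟩ := he
    rw [r1] at e1
    rw [r2] at e2
    rw [r3] at e3
    rw [r4] at e4
    omega

/-- the size of the roots -/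
theorem beta_le {j : ℕ} (hj : 1 ≤ j) :
    ((Nat.sqrt (3 * 2 ^ (j - 1)) : ℕ) : ℝ) ^ 2 ≤ 3 / 2 * 2 ^ j := by
  have h1 : Nat.sqrt (3 * 2 ^ (j - 1)) ^ 2 ≤ 3 * 2 ^ (j - 1) := Nat.sqrt_le' _
  have h2 : ((Nat.sqrt (3 * 2 ^ (j - 1)) : ℕ) : ℝ) ^ 2 ≤ 3 * 2 ^ (j - 1) := by exact_mod_cast h1
  have h3 : (2 : ℝ) ^ j = 2 * 2 ^ (j - 1) := by
    obtain ⟨i, rfl⟩ : ∃ i, j = i + 1 := ⟨j - 1, by omega⟩
    rw [Nat.add_sub_cancel, pow_succ]
    ring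
  linarith

theorem quad_le {j : ℕ} (hj : 1 ≤ j) : ((quad (RR j)).card : ℝ) ≤ 26 * j * 2 ^ j := by
  obtain ⟨β, hβ⟩ : ∃ β, β = Nat.sqrt (3 * 2 ^ (j - 1)) := ⟨_, rfl⟩
  have h1 : ((quad (RR j)).card : ℝ) ≤ ((sq4 β).card : ℝ) := by
    rw [hβ]
    exact_mod_cast quad_RR hj
  have h2 := sq4_le β
  have h3 : (β : ℝ) ^ 2 ≤ 3 / 2 * 2 ^ j := by rw [hβ]; exact beta_le hj
  have hj1 : (1 : ℝ) ≤ j := by exact_mod_cast hj
  have h4 : Real.log β ≤ j := by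
    rcases Nat.eq_zero_or_pos β with h0 | h0
    · rw [h0, Nat.cast_zero, Real.log_zero]
      linarith
    · have h5 : (1 : ℝ) ≤ β := by exact_mod_cast h0
      have h6 : (β : ℝ) ^ 2 ≤ (Real.exp j) ^ 2 := by
        have h7 : (2 : ℝ) ≤ Real.exp 1 := by
          have := Real.add_one_le_exp (1 : ℝ)
          linarith
        have h8 : (2 : ℝ) ^ j ≤ Real.exp j := by
          have h9 : Real.exp (j : ℝ) = Real.exp 1 ^ j := by
            rw [← Real.exp_nat_mul, mul_one]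
          rw [h9]
          exact pow_le_pow_left₀ (by norm_num) h7 j
        have h10 : (2 : ℝ) ≤ 2 ^ j := by
          calc (2 : ℝ) = 2 ^ 1 := by norm_num
            _ ≤ 2 ^ j := pow_le_pow_right₀ (by norm_num) hj
        nlinarith
      have h7 : (β : ℝ) ≤ Real.exp j := le_of_sq_le_sq h6 (Real.exp_pos _).le
      calc Real.log β ≤ Real.log (Real.exp j) := Real.log_le_log (by linarith) h7
        _ = j := Real.log_exp _
  have h5 : (β : ℝ) ^ 2 * (9 + 8 * Real.log β) ≤ (3 / 2 * 2 ^ j) * (9 + 8 * j) := by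
    have h6 : (β : ℝ) ^ 2 * (9 + 8 * Real.log β) ≤ (β : ℝ) ^ 2 * (9 + 8 * j) :=
      mul_le_mul_of_nonneg_left (by linarith) (by positivity)
    exact h6.trans (mul_le_mul_of_nonneg_right h3 (by positivity))
  have h6 : (3 / 2 * (2 : ℝ) ^ j) * (9 + 8 * j) ≤ 26 * j * 2 ^ j := by
    have : (0 : ℝ) < 2 ^ j := by positivity
    nlinarith
  linarith

theorem card_ge {j : ℕ} (hj : 16 ≤ j) : √(2 ^ j : ℝ) / 5 ≤ ((RR j).card : ℝ) := by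
  rw [card_RR]
  have h1 : ((Nat.sqrt (2 ^ j) : ℕ) : ℝ) ≤ √(2 ^ j : ℝ) := by
    have := Real.nat_sqrt_le_real_sqrt (a := 2 ^ j)
    push_cast at this
    exact this
  have h2 : √(3 / 2 * 2 ^ j : ℝ) ≤ ((Nat.sqrt (3 * 2 ^ (j - 1)) : ℕ) : ℝ) + 1 := by
    have h3 := Real.real_sqrt_le_nat_sqrt_succ (a := 3 * 2 ^ (j - 1))
    have h4 : ((3 * 2 ^ (j - 1) : ℕ) : ℝ) = 3 / 2 * 2 ^ j := by
      obtain ⟨i, rfl⟩ : ∃ i, j = i + 1 := ⟨j - 1, by omega⟩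
      rw [Nat.add_sub_cancel, pow_succ]
      push_cast
      ring
    rw [h4] at h3
    exact h3
  have h3 : √(3 / 2 * 2 ^ j : ℝ) = √(3 / 2) * √(2 ^ j : ℝ) := Real.sqrt_mul (by norm_num) _
  have h4 : (49 : ℝ) / 40 ≤ √(3 / 2) + 1 / 1000 := by
    have : (1224 : ℝ) / 1000 ≤ √(3 / 2) := Real.le_sqrt_of_sq_le (by norm_num)
    linarith
  have h5 : (256 : ℝ) ≤ √(2 ^ j : ℝ) := by
    apply Real.le_sqrt_of_sq_le
    calc (256 : ℝ) ^ 2 = 2 ^ 16 := by norm_num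
      _ ≤ 2 ^ j := pow_le_pow_right₀ (by norm_num) hj
  have h6 : √(2 ^ j : ℝ) / 5 + ((Nat.sqrt (2 ^ j) : ℕ) : ℝ) + 1 ≤
      ((Nat.sqrt (3 * 2 ^ (j - 1)) : ℕ) : ℝ) := by
    rw [h3] at h2
    nlinarith
  have h7 : Nat.sqrt (2 ^ j) + 1 ≤ Nat.sqrt (3 * 2 ^ (j - 1)) := by
    have : ((Nat.sqrt (2 ^ j) + 1 : ℕ) : ℝ) ≤ ((Nat.sqrt (3 * 2 ^ (j - 1)) : ℕ) : ℝ) := by
      push_cast
      linarith
    exact_mod_cast this
  rw [Nat.cast_sub h7]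
  push_cast
  linarith

theorem card_le {j : ℕ} (hj : 1 ≤ j) : ((RR j).card : ℝ) ^ 2 ≤ 3 / 2 * 2 ^ j := by
  have h1 : (RR j).card ≤ Nat.sqrt (3 * 2 ^ (j - 1)) := by
    rw [card_RR]
    omega
  have h2 : ((RR j).card : ℝ) ≤ ((Nat.sqrt (3 * 2 ^ (j - 1)) : ℕ) : ℝ) := by exact_mod_cast h1
  exact (pow_le_pow_left₀ (Nat.cast_nonneg _) h2 2).trans (beta_le hj)

/-- one scale -/
theorem one_scale {j : ℕ} (hj : 24 ≤ j) : ∃ B ⊆ RR j, ((quad B).card : ℝ) ≤ 160 * 2 ^ j ∧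
    √(2 ^ j : ℝ) / (10 * (j : ℝ) ^ ((1 : ℝ) / 4)) ≤ (B.card : ℝ) := by
  have hj0 : (0 : ℝ) < j := by
    have : 0 < j := by omega
    exact_mod_cast this
  obtain ⟨r, hr⟩ : ∃ r : ℝ, r = (j : ℝ) ^ ((1 : ℝ) / 4) := ⟨_, rfl⟩
  have hr0 : 0 < r := by rw [hr]; positivity
  have hr4 : r ^ 4 = j := by
    rw [hr, ← Real.rpow_natCast, ← Real.rpow_mul hj0.le]
    norm_num
  have hr1 : 1 ≤ r := by
    by_contra hcon
    have h1 : r ^ 4 < 1 := pow_lt_one₀ hr0.le (not_le.1 hcon) (by norm_num)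
    have h2 : (1 : ℝ) ≤ j := by
      have : 1 ≤ j := by omega
      exact_mod_cast this
    linarith
  obtain ⟨l, hl⟩ : ∃ l : ℝ, l = 1 / r := ⟨_, rfl⟩
  have hl0 : 0 ≤ l := by rw [hl]; positivity
  have hl1 : l ≤ 1 := by
    rw [hl, div_le_one hr0]
    exact hr1
  obtain ⟨N, hN⟩ : ∃ N : ℝ, N = ((RR j).card : ℝ) := ⟨_, rfl⟩
  have hN0 : 0 ≤ N := by rw [hN]; exact Nat.cast_nonneg _
  have hN2 : N ^ 2 ≤ 3 / 2 * 2 ^ j := by rw [hN]; exact card_le (by omega)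
  have hN1 : √(2 ^ j : ℝ) / 5 ≤ N := by rw [hN]; exact card_ge (by omega)
  have hsum : ∑ _a ∈ RR j, l = N * l := by rw [sum_const, nsmul_eq_mul, hN]
  -- the size of the selection
  have hbig : 6 ≤ N * l := by
    have h1 : (r : ℝ) ^ 4 ≤ (30 : ℝ) ^ 4 ∨ (30 : ℝ) ^ 4 < r ^ 4 := le_or_gt _ _
    have h2 : (j : ℝ) < 2 ^ j := by exact_mod_cast Nat.lt_two_pow_self
    obtain ⟨s, hs⟩ : ∃ s : ℝ, s = √(2 ^ j : ℝ) := ⟨_, rfl⟩
    have hs2 : s ^ 2 = 2 ^ j := by rw [hs]; exact Real.sq_sqrt (by positivity)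
    have hs0 : 0 ≤ s := by rw [hs]; exact Real.sqrt_nonneg _
    rw [← hs] at hN1
    have h3 : 30 * r ≤ s := by
      refine le_of_sq_le_sq ?_ hs0
      rw [hs2]
      -- 900 r² ≤ 2^j from r⁴ = j
      have h4 : (900 * r ^ 2) ^ 2 ≤ ((2 : ℝ) ^ j) ^ 2 := by
        have h5 : (900 * r ^ 2) ^ 2 = 810000 * j := by rw [← hr4]; ring
        have h6 : (2 : ℝ) ^ 24 ≤ 2 ^ j := pow_le_pow_right₀ (by norm_num) hj
        have h7 : (2 : ℝ) ^ 24 = 16777216 := by norm_num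
        rw [h5]
        nlinarith
      have h5 := le_of_sq_le_sq h4 (by positivity)
      calc (30 * r) ^ 2 = 900 * r ^ 2 := by ring
        _ ≤ 2 ^ j := h5
    rw [hl, mul_one_div, le_div_iff₀ hr0]
    linarith
  have hE : EX (fun _ => l) (RR j) (fun S => ((quad S).card : ℝ)) ≤ 40 * 2 ^ j := by
    refine (EX_quad (fun _ => hl0) (fun _ => hl1) (RR j)).trans ?_
    rw [sum_const, nsmul_eq_mul, hsum]
    have h1 := quad_le (j := j) (by omega)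
    have h2 : ((quad (RR j)).card : ℝ) * (l * l * (l * l)) ≤ 26 * 2 ^ j := by
      have h3 : l * l * (l * l) = 1 / j := by
        rw [hl, ← hr4]
        field_simp
      rw [h3]
      calc ((quad (RR j)).card : ℝ) * (1 / j) ≤ 26 * j * 2 ^ j * (1 / j) :=
            mul_le_mul_of_nonneg_right h1 (by positivity)
        _ = 26 * 2 ^ j := by field_simp
    have h3 : N * l ≤ N := mul_le_of_le_one_right hN0 hl1
    have h4 : (N * l) ^ 2 ≤ N ^ 2 := pow_le_pow_left₀ (mul_nonneg hN0 hl0) h3 2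
    have h5 : N * l ≤ (N * l) ^ 2 / 6 := by nlinarith
    nlinarith
  have hQ' : (0 : ℝ) < 160 * 2 ^ j := by positivity
  have hδ : 0 < N * l / 2 := by linarith
  have hlt : 40 * 2 ^ j / (160 * 2 ^ j) + (({()} : Finset Unit).card : ℝ) * (N * l) /
      (N * l / 2) ^ 2 < 1 := by
    have e1 : 40 * (2 : ℝ) ^ j / (160 * 2 ^ j) = 1 / 4 := by
      have : (2 : ℝ) ^ j ≠ 0 := by positivity
      field_simp
      norm_num
    have e2 : (({()} : Finset Unit).card : ℝ) * (N * l) / (N * l / 2) ^ 2 = 4 / (N * l) := by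
      rw [card_singleton, Nat.cast_one]
      have : N * l ≠ 0 := by linarith
      field_simp
      norm_num
    have e3 : 4 / (N * l) ≤ 4 / 6 := by gcongr
    rw [e1, e2]
    norm_num at e3 ⊢
    linarith
  obtain ⟨A, hA, hAE, hAc⟩ := select (fun _ => hl0) (fun _ => hl1) (RR j)
    ({()} : Finset Unit) (fun _ _ => (1 : ℂ)) (fun _ _ => by simp) hE (by rw [hsum])
    hQ' hδ hlt
  refine ⟨A, hA, hAE, ?_⟩
  have h1 := hAc () (mem_singleton_self _)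
  have h2 : ∑ _a ∈ A, (1 : ℂ) - ∑ _a ∈ RR j, (l : ℂ) * 1 =
      (((A.card : ℝ) - N * l : ℝ) : ℂ) := by
    rw [sum_const, sum_const, hN]
    push_cast
    simp only [nsmul_eq_mul, mul_one]
  rw [h2, Complex.norm_real, Real.norm_eq_abs] at h1
  have h3 := (abs_le.1 h1).1
  have h4 : √(2 ^ j : ℝ) / (10 * r) ≤ N * l / 2 := by
    rw [hl]
    have : √(2 ^ j : ℝ) / (10 * r) = (√(2 ^ j : ℝ) / 5) * (1 / r) / 2 := by field_simp; norm_num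
    rw [this]
    have h5 : 0 ≤ 1 / r := by positivity
    nlinarith [mul_le_mul_of_nonneg_right hN1 h5]
  rw [← hr]
  linarith

end Pool.Agent.Helper25.SQ
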